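import Pool.Agent.C1E.Edge

/-!
# A partition of `ℝ ^ 6` into 44 sets without obtuse angles
-/

namespace C1B

open Finset C1E

/-- signs of the coordinates -/
noncomputable def sb (t : ℝ) : Bool := decide (0 ≤ t)

theorem sb_abs (t : ℝ) : t = sg (sb t) * |t| := by
  by_cases h : 0 ≤ t
  · simp only [sb, h, decide_true, sg_true, one_mul, abs_of_nonneg]
  · simp only [sb, h, decide_false, sg_false]
    rw [abs_of_neg (lt_of_not_ge h)]; ring

theorem sg_mul_self (b : Bool) : sg b * sg b = 1 := by cases b <;> simp [sg]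

/-- The set of a sign vector. -/
def InB (y : Fin 6 → ℝ) (s : Fin 6 → Bool) : Prop :=
  (∀ m, y m = sg (s m) * |y m|) ∧ (∀ m, 2 * |y m| ≤ ∑ m, |y m|) ∨
  ∃ k, (∀ m, m ≠ k → y m = sg (s m) * |y m|) ∧ y k = - (sg (s k) * |y k|) ∧
    (∀ m, |y k| ≤ |y m|) ∧ ∀ m, 2 * |y m| + 3 * |y k| ≤ ∑ m, |y m|

/-- The set of a signed unit vector. -/
def InA (y : Fin 6 → ℝ) (l : Fin 6) (b : Bool) : Prop :=
  y l = sg b * |y l| ∧ (∀ m, |y m| ≤ |y l|) ∧
  (∑ m, |y m| < 2 * |y l| ∨ ∃ k, (∀ m, |y k| ≤ |y m|) ∧ ∑ m, |y m| < 2 * |y l| + 3 * |y k| ∧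
    sb (y l) = b ∧ ∏ m, sg (sb (y m)) = -1)

theorem exists_set (y : Fin 6 → ℝ) :
    (∃ s : Fin 6 → Bool, ∏ m, sg (s m) = 1 ∧ InB y s) ∨ ∃ l b, InA y l b := by
  classical
  obtain ⟨l, hl⟩ := Finite.exists_max fun m => |y m|
  obtain ⟨k, hk⟩ := Finite.exists_min fun m => |y m|
  have hpm : ∏ m, sg (sb (y m)) = 1 ∨ ∏ m, sg (sb (y m)) = -1 := by
    have h1 : |∏ m, sg (sb (y m))| = 1 := by
      rw [Finset.abs_prod]
      exact Finset.prod_eq_one fun m _ => abs_sg _
    rcases abs_cases (∏ m, sg (sb (y m))) with ⟨h, _⟩ | ⟨h, _⟩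
    · left; linarith
    · right; linarith
  rcases hpm with hp | hp
  · by_cases h : 2 * |y l| ≤ ∑ m, |y m|
    · exact Or.inl ⟨fun m => sb (y m), hp, Or.inl ⟨fun m => sb_abs (y m), fun m => by
        linarith [hl m]⟩⟩
    · push Not at h
      exact Or.inr ⟨l, sb (y l), sb_abs (y l), hl, Or.inl h⟩
  · by_cases h : 2 * |y l| + 3 * |y k| ≤ ∑ m, |y m|
    · refine Or.inl ⟨Function.update (fun m => sb (y m)) k (!(sb (y k))), ?_, Or.inr ⟨k, ?_, ?_,
        hk, fun m => by linarith [hl m]⟩⟩
      · rw [← Finset.mul_prod_erase univ _ (mem_univ k)] at hp ⊢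
        rw [Function.update_self, sg_not]
        have : ∏ m ∈ univ.erase k, sg (Function.update (fun m => sb (y m)) k (!(sb (y k))) m) =
            ∏ m ∈ univ.erase k, sg (sb (y m)) := by
          refine Finset.prod_congr rfl fun m hm => ?_
          rw [Function.update_of_ne (Finset.ne_of_mem_erase hm)]
        rw [this]
        linarith
      · intro m hm
        rw [Function.update_of_ne hm]
        exact sb_abs (y m)
      · rw [Function.update_self, sg_not]
        have := sb_abs (y k)
        linarith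
    · push Not at h
      exact Or.inr ⟨l, sb (y l), sb_abs (y l), hl, Or.inr ⟨k, hk, h, rfl, hp⟩⟩

/-- even against odd -/
theorem even_odd {y y' : Fin 6 → ℝ} {s : Fin 6 → Bool} (h1 : ∀ m, y m = sg (s m) * |y m|)
    (h2 : ∀ m, 2 * |y m| ≤ ∑ m, |y m|) {l : Fin 6} (h3 : ∀ m, m ≠ l → y' m = sg (s m) * |y' m|)
    (h4 : y' l = - (sg (s l) * |y' l|)) (h5 : ∀ m, |y' l| ≤ |y' m|) : 0 ≤ ∑ m, y m * y' m := by
  classical
  rw [← Finset.add_sum_erase _ _ (mem_univ l)]
  have e1 : y l * y' l = - (|y l| * |y' l|) := by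
    have e : y l * y' l = (sg (s l) * |y l|) * (- (sg (s l) * |y' l|)) := by rw [← h1, ← h4]
    rw [e]
    linear_combination (- |y l| * |y' l|) * sg_mul_self (s l)
  have e2 : |y' l| * ∑ m ∈ univ.erase l, |y m| ≤ ∑ m ∈ univ.erase l, y m * y' m := by
    rw [Finset.mul_sum]
    refine Finset.sum_le_sum fun m hm => ?_
    have hm' := Finset.ne_of_mem_erase hm
    have e : y m * y' m = |y m| * |y' m| := by
      have e : y m * y' m = (sg (s m) * |y m|) * (sg (s m) * |y' m|) := by rw [← h1, ← h3 m hm']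
      rw [e]
      linear_combination (|y m| * |y' m|) * sg_mul_self (s m)
    rw [e]
    nlinarith [h5 m, abs_nonneg (y m)]
  have e3 : ∑ m, |y m| = |y l| + ∑ m ∈ univ.erase l, |y m| :=
    (Finset.add_sum_erase _ _ (mem_univ l)).symm
  have e4 := h2 l
  rw [e3] at e4
  rw [e1]
  nlinarith [abs_nonneg (y' l)]

theorem acuteB {y y' : Fin 6 → ℝ} {s : Fin 6 → Bool} (h : InB y s) (h' : InB y' s) :
    0 ≤ ∑ m, y m * y' m := by
  classical
  rcases h with ⟨h1, h2⟩ | ⟨k, h1, h2, h3, h4⟩
  · rcases h' with ⟨h1', h2'⟩ | ⟨l, h1', h2', h3', h4'⟩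
    · refine Finset.sum_nonneg fun m _ => ?_
      have e : y m * y' m = (sg (s m) * |y m|) * (sg (s m) * |y' m|) := by rw [← h1, ← h1']
      have e' : (sg (s m) * |y m|) * (sg (s m) * |y' m|) = |y m| * |y' m| := by
        linear_combination (|y m| * |y' m|) * sg_mul_self (s m)
      rw [e, e']
      positivity
    · exact even_odd h1 h2 h1' h2' h3'
  · rcases h' with ⟨h1', h2'⟩ | ⟨l, h1', h2', h3', h4'⟩
    · have := even_odd h1' h2' h1 h2 h3
      simpa only [mul_comm] using this
    · by_cases hkl : k = l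
      · subst hkl
        refine Finset.sum_nonneg fun m _ => ?_
        by_cases hm : m = k
        · subst hm
          have e : y m * y' m = (-(sg (s m) * |y m|)) * (-(sg (s m) * |y' m|)) := by
            rw [← h2, ← h2']
          have e' : (-(sg (s m) * |y m|)) * (-(sg (s m) * |y' m|)) = |y m| * |y' m| := by
            linear_combination (|y m| * |y' m|) * sg_mul_self (s m)
          rw [e, e']
          positivity
        · have e : y m * y' m = (sg (s m) * |y m|) * (sg (s m) * |y' m|) := by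
            rw [← h1 m hm, ← h1' m hm]
          have e' : (sg (s m) * |y m|) * (sg (s m) * |y' m|) = |y m| * |y' m| := by
            linear_combination (|y m| * |y' m|) * sg_mul_self (s m)
          rw [e, e']
          positivity
      · have hlk : l ∈ univ.erase k := Finset.mem_erase.2 ⟨Ne.symm hkl, mem_univ l⟩
        have split : ∀ f : Fin 6 → ℝ, ∑ m, f m = f k + (f l + ∑ m ∈ (univ.erase k).erase l, f m) :=
          fun f => by
          rw [Finset.add_sum_erase _ _ hlk, Finset.add_sum_erase _ _ (mem_univ k)]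
        have hcard : ((univ.erase k).erase l).card = 4 := by
          rw [Finset.card_erase_of_mem hlk, Finset.card_erase_of_mem (mem_univ k)]
          simp
        set A := |y k| with hA
        set B := |y' l| with hB
        have ek : y k * y' k = - (A * |y' k|) := by
          have e : y k * y' k = (-(sg (s k) * |y k|)) * (sg (s k) * |y' k|) := by
            rw [← h2, ← h1' k hkl]
          rw [e]
          linear_combination (- |y k| * |y' k|) * sg_mul_self (s k)
        have el : y l * y' l = - (|y l| * B) := by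
          have e : y l * y' l = (sg (s l) * |y l|) * (-(sg (s l) * |y' l|)) := by
            rw [← h2', ← h1 l (Ne.symm hkl)]
          rw [e]
          linear_combination (- |y l| * |y' l|) * sg_mul_self (s l)
        have hR : A * ∑ m ∈ (univ.erase k).erase l, |y' m| + B * ∑ m ∈ (univ.erase k).erase l, |y m|
            - 4 * (A * B) ≤ ∑ m ∈ (univ.erase k).erase l, y m * y' m := by
          have e4 : (4 : ℝ) * (A * B) = ∑ _m ∈ (univ.erase k).erase l, A * B := by
            rw [Finset.sum_const, hcard]; simp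
          rw [e4, Finset.mul_sum, Finset.mul_sum, ← Finset.sum_add_distrib,
            ← Finset.sum_sub_distrib]
          refine Finset.sum_le_sum fun m hm => ?_
          have hml := Finset.ne_of_mem_erase hm
          have hmk := Finset.ne_of_mem_erase (Finset.mem_of_mem_erase hm)
          have e : y m * y' m = (sg (s m) * |y m|) * (sg (s m) * |y' m|) := by
            rw [← h1 m hmk, ← h1' m hml]
          have e' : (sg (s m) * |y m|) * (sg (s m) * |y' m|) = |y m| * |y' m| := by
            linear_combination (|y m| * |y' m|) * sg_mul_self (s m)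
          rw [e, e']
          nlinarith [h3 m, h3' m]
        have f1 := h4 l
        have f2 := h4' k
        rw [split] at f1 f2
        rw [split, ek, el]
        have hA0 : 0 ≤ A := abs_nonneg _
        have hB0 : 0 ≤ B := abs_nonneg _
        nlinarith [mul_nonneg hB0 (sub_nonneg.2 f1), mul_nonneg hA0 (sub_nonneg.2 f2)]

/-- deep points -/
theorem deep {y y' : Fin 6 → ℝ} {l : Fin 6} {b : Bool} (h1 : y l = sg b * |y l|)
    (h1' : y' l = sg b * |y' l|) (h2' : ∀ m, |y' m| ≤ |y' l|) (h3 : ∑ m, |y m| < 2 * |y l|) :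
    0 ≤ ∑ m, y m * y' m := by
  classical
  rw [← Finset.add_sum_erase _ _ (mem_univ l)]
  have e1 : y l * y' l = |y l| * |y' l| := by
    have e : y l * y' l = (sg b * |y l|) * (sg b * |y' l|) := by rw [← h1, ← h1']
    rw [e]
    linear_combination (|y l| * |y' l|) * sg_mul_self b
  have e2 : - (|y' l| * ∑ m ∈ univ.erase l, |y m|) ≤ ∑ m ∈ univ.erase l, y m * y' m := by
    rw [Finset.mul_sum, ← Finset.sum_neg_distrib]
    refine Finset.sum_le_sum fun m _ => ?_
    have h := neg_abs_le (y m * y' m)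
    rw [abs_mul] at h
    nlinarith [h2' m, abs_nonneg (y m)]
  have e3 : ∑ m, |y m| = |y l| + ∑ m ∈ univ.erase l, |y m| :=
    (Finset.add_sum_erase _ _ (mem_univ l)).symm
  rw [e3] at h3
  rw [e1]
  nlinarith [abs_nonneg (y' l)]

/-- the bound for odd points near the axis -/
theorem odd_sq {y : Fin 6 → ℝ} {l k j : Fin 6} (hj : j ≠ l) (hk : ∀ m, |y k| ≤ |y m|)
    (h : ∑ m, |y m| < 2 * |y l| + 3 * |y k|) :
    ∑ m ∈ (univ.erase l).erase j, |y m| ^ 2 ≤ |y l| ^ 2 := by
  classical
  have hjl : j ∈ univ.erase l := Finset.mem_erase.2 ⟨hj, mem_univ j⟩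
  have hcard : ((univ.erase l).erase j).card = 4 := by
    rw [Finset.card_erase_of_mem hjl, Finset.card_erase_of_mem (mem_univ l)]
    simp
  have split : ∑ m, |y m| = |y l| + (|y j| + ∑ m ∈ (univ.erase l).erase j, |y m|) := by
    rw [Finset.add_sum_erase _ (fun m => |y m|) hjl,
      Finset.add_sum_erase _ (fun m => |y m|) (mem_univ l)]
  set a := |y k| with ha
  have ha0 : 0 ≤ a := abs_nonneg _
  set C := (univ.erase l).erase j with hC
  set S := ∑ m ∈ C, (|y m| - a) with hS
  have hS1 : ∑ m ∈ C, |y m| = S + 4 * a := by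
    rw [hS, Finset.sum_sub_distrib, Finset.sum_const, hcard]; simp
  have hS0 : 0 ≤ S := Finset.sum_nonneg fun m _ => sub_nonneg.2 (hk m)
  have hsq : ∑ m ∈ C, (|y m| - a) ^ 2 ≤ S ^ 2 := by
    rw [hS, sq, Finset.sum_mul_sum]
    refine Finset.sum_le_sum fun m hm => ?_
    have : (|y m| - a) * (|y m| - a) ≤ ∑ i ∈ C, (|y m| - a) * (|y i| - a) :=
      Finset.single_le_sum (f := fun i => (|y m| - a) * (|y i| - a))
        (fun i _ => mul_nonneg (sub_nonneg.2 (hk m)) (sub_nonneg.2 (hk i))) hm
    linarith [sq (|y m| - a)]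
  have e : ∑ m ∈ C, |y m| ^ 2 = ∑ m ∈ C, (|y m| - a) ^ 2 + 2 * a * S + 4 * a ^ 2 := by
    have e1 : (4 : ℝ) * a ^ 2 = ∑ _m ∈ C, a ^ 2 := by rw [Finset.sum_const, hcard]; simp
    rw [e1, hS, Finset.mul_sum, ← Finset.sum_add_distrib, ← Finset.sum_add_distrib]
    exact Finset.sum_congr rfl fun m _ => by ring
  rw [split, hS1] at h
  have hyj := hk j
  have h5 : 2 * a + S ≤ |y l| := by linarith
  have h6 : (2 * a + S) ^ 2 ≤ |y l| ^ 2 := by
    apply pow_le_pow_left₀ _ h5
    positivity
  rw [e]
  nlinarith [mul_nonneg ha0 hS0]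

theorem acuteA {y y' : Fin 6 → ℝ} {l : Fin 6} {b : Bool} (h : InA y l b) (h' : InA y' l b) :
    0 ≤ ∑ m, y m * y' m := by
  classical
  obtain ⟨h1, h2, h3⟩ := h
  obtain ⟨h1', h2', h3'⟩ := h'
  rcases h3 with h3 | ⟨k, hk, h3, hb, hp⟩
  · exact deep h1 h1' h2' h3
  · rcases h3' with h3' | ⟨k', hk', h3', hb', hp'⟩
    · have := deep h1' h1 h2 h3'
      simpa only [mul_comm] using this
    · -- a common sign outside of `l`
      obtain ⟨j, hj, hjj⟩ : ∃ j, j ≠ l ∧ sb (y j) = sb (y' j) := by
        by_contra hno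
        push Not at hno
        have e1 : ∏ m, (sg (sb (y m)) * sg (sb (y' m))) = 1 := by
          rw [Finset.prod_mul_distrib, hp, hp']; norm_num
        rw [← Finset.mul_prod_erase univ _ (mem_univ l), hb, hb', sg_mul_self, one_mul] at e1
        have e2 : ∏ m ∈ univ.erase l, (sg (sb (y m)) * sg (sb (y' m))) =
            ∏ _m ∈ univ.erase l, (-1 : ℝ) := by
          refine Finset.prod_congr rfl fun m hm => ?_
          have := hno m (Finset.ne_of_mem_erase hm)
          revert this
          cases sb (y m) <;> cases sb (y' m) <;> simp [sg]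
        rw [e2, Finset.prod_const, Finset.card_erase_of_mem (mem_univ l)] at e1
        simp at e1
        norm_num at e1
      have hjl : j ∈ univ.erase l := Finset.mem_erase.2 ⟨hj, mem_univ j⟩
      have split : ∑ m, y m * y' m =
          y l * y' l + (y j * y' j + ∑ m ∈ (univ.erase l).erase j, y m * y' m) := by
        rw [Finset.add_sum_erase _ (fun m => y m * y' m) hjl,
          Finset.add_sum_erase _ (fun m => y m * y' m) (mem_univ l)]
      have e1 : y l * y' l = |y l| * |y' l| := by
        have e : y l * y' l = (sg b * |y l|) * (sg b * |y' l|) := by rw [← h1, ← h1']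
        rw [e]
        linear_combination (|y l| * |y' l|) * sg_mul_self b
      have e2 : 0 ≤ y j * y' j := by
        have e : y j * y' j = (sg (sb (y j)) * |y j|) * (sg (sb (y j)) * |y' j|) := by
          rw [← sb_abs (y j), hjj, ← sb_abs (y' j)]
        have e' : (sg (sb (y j)) * |y j|) * (sg (sb (y j)) * |y' j|) = |y j| * |y' j| := by
          linear_combination (|y j| * |y' j|) * sg_mul_self (sb (y j))
        rw [e, e']
        positivity
      have hs := odd_sq hj hk h3
      have hs' := odd_sq hj hk' h3'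
      have hcs := Finset.sum_mul_sq_le_sq_mul_sq ((univ.erase l).erase j) y y'
      have e3 : ∀ z : Fin 6 → ℝ, ∑ m ∈ (univ.erase l).erase j, z m ^ 2 =
          ∑ m ∈ (univ.erase l).erase j, |z m| ^ 2 := fun z =>
        Finset.sum_congr rfl fun m _ => (sq_abs (z m)).symm
      rw [e3 y, e3 y'] at hcs
      have h7 : (∑ m ∈ (univ.erase l).erase j, y m * y' m) ^ 2 ≤ (|y l| * |y' l|) ^ 2 := by
        rw [mul_pow]
        refine hcs.trans (mul_le_mul hs hs' (Finset.sum_nonneg fun m _ => by positivity)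
          (by positivity))
      have h8 := abs_le_of_sq_le_sq' h7 (by positivity)
      rw [split, e1]
      linarith [h8.1]

/-- `ℝ ^ 6` is the union of 44 sets without obtuse angles. -/
theorem acute6 : ∃ col : (Fin 6 → ℝ) → Fin 44, ∀ y y', col y = col y' → 0 ≤ ∑ m, y m * y' m := by
  classical
  have hcard : Fintype.card ((Fin 5 → Bool) ⊕ (Fin 6 × Bool)) = 44 := by
    simp
  have hex : ∀ y : Fin 6 → ℝ, ∃ o : (Fin 5 → Bool) ⊕ (Fin 6 × Bool),
      (∀ t, o = Sum.inl t → ∃ s : Fin 6 → Bool, ∏ m, sg (s m) = 1 ∧ InB y s ∧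
        ∀ m, s (Fin.castSucc m) = t m) ∧ ∀ l b, o = Sum.inr (l, b) → InA y l b := by
    intro y
    rcases exists_set y with ⟨s, hs, hy⟩ | ⟨l, b, hy⟩
    · refine ⟨Sum.inl fun m => s (Fin.castSucc m), fun t ht => ⟨s, hs, hy, fun m => ?_⟩,
        fun l b h => by simp at h⟩
      exact congrFun (Sum.inl_injective ht) m
    · refine ⟨Sum.inr (l, b), fun t ht => by simp at ht, fun l' b' h => ?_⟩
      have := Sum.inr_injective h
      rw [Prod.mk.injEq] at this
      rw [← this.1, ← this.2]
      exact hy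
  choose o ho using hex
  refine ⟨fun y => Fintype.equivFinOfCardEq hcard (o y), fun y y' h => ?_⟩
  have h' : o y = o y' := (Fintype.equivFinOfCardEq hcard).injective h
  rcases hoy : o y with t | ⟨l, b⟩
  · obtain ⟨s, hs, hy, hst⟩ := (ho y).1 t hoy
    obtain ⟨s', hs', hy', hst'⟩ := (ho y').1 t (by rw [← h', hoy])
    have hss : s = s' := by
      have h1 : ∀ m : Fin 5, s (Fin.castSucc m) = s' (Fin.castSucc m) := fun m => by
        rw [hst, hst']
      have h2 : s (Fin.last 5) = s' (Fin.last 5) := by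
        rw [Fin.prod_univ_castSucc] at hs hs'
        have h3 : ∏ m : Fin 5, sg (s (Fin.castSucc m)) = ∏ m : Fin 5, sg (s' (Fin.castSucc m)) :=
          Finset.prod_congr rfl fun m _ => by rw [h1]
        rw [h3] at hs
        have h4 : sg (s (Fin.last 5)) = sg (s' (Fin.last 5)) := by
          have h5 : ∏ m : Fin 5, sg (s' (Fin.castSucc m)) ≠ 0 := by
            intro h0
            rw [h0, zero_mul] at hs
            norm_num at hs
          exact mul_left_cancel₀ h5 (hs.trans hs'.symm)
        revert h4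
        cases s (Fin.last 5) <;> cases s' (Fin.last 5) <;> simp [sg] <;> norm_num
      funext m
      refine Fin.lastCases h2 h1 m
    subst hss
    exact acuteB hy hy'
  · exact acuteA ((ho y).2 l b hoy) ((ho y').2 l b (by rw [← h', hoy]))

/-- The same in dimension `6 + m`, with `44 * 2 ^ m` sets. -/
theorem acute_add (k : ℕ) : ∃ col : (Fin (6 + k) → ℝ) → Fin (44 * 2 ^ k),
    ∀ y y', col y = col y' → 0 ≤ ∑ m, y m * y' m := by
  classical
  obtain ⟨c6, hc6⟩ := acute6
  have hcard : Fintype.card (Fin 44 × (Fin k → Bool)) = 44 * 2 ^ k := by simp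
  refine ⟨fun y => Fintype.equivFinOfCardEq hcard (c6 fun m => y (Fin.castAdd k m),
    fun m => sb (y (Fin.natAdd 6 m))), fun y y' h => ?_⟩
  have h' := (Fintype.equivFinOfCardEq hcard).injective h
  rw [Prod.mk.injEq] at h'
  rw [Fin.sum_univ_add]
  refine add_nonneg (hc6 _ _ h'.1) (Finset.sum_nonneg fun m _ => ?_)
  have h1 : sb (y (Fin.natAdd 6 m)) = sb (y' (Fin.natAdd 6 m)) := congrFun h'.2 m
  set t := y (Fin.natAdd 6 m)
  set t' := y' (Fin.natAdd 6 m)
  have e : t * t' = (sg (sb t) * |t|) * (sg (sb t) * |t'|) := by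
    rw [← sb_abs t, h1, ← sb_abs t']
  have e' : (sg (sb t) * |t|) * (sg (sb t) * |t'|) = |t| * |t'| := by
    linear_combination (|t| * |t'|) * sg_mul_self (sb t)
  rw [e, e']
  positivity

end C1B
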