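import Pool.Agent.C1B.Acute
import Pool.Agent.C1G.Pc

/-!
# Colourings of families of Euclidean balls
-/

namespace C1B

open Finset Module C1E C1G

/-- The algebra of a pair of touching members with product of the last coordinates negative. -/
theorem key {n : ℕ} {y y' : Fin n → ℝ} {a a' t s g : ℝ} (h1' : a' ^ 2 + ∑ m, y' m ^ 2 = 1 + s ^ 2)
    (ht : t ≤ g) (hs : s ≤ g) (hg : g < 1) (_ : a < 0) (_ : 0 < a')
    (h3 : (1 + g ^ 2) * a ^ 2 ≤ (1 - g * t) ^ 2) (hts : 0 < t + s)
    (h4 : a * a' + ∑ m, y m * y' m = t * s - 1) (h5 : 0 ≤ ∑ m, y m * y' m) :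
    s = g ∧ ∑ m, y' m ^ 2 = 0 := by
  have hY : 0 ≤ ∑ m, y' m ^ 2 := Finset.sum_nonneg fun m _ => sq_nonneg _
  set Y := ∑ m, y' m ^ 2 with hYd
  have hg0 : 0 < g := by linarith
  have hgt : 0 < 1 - g * t := by nlinarith
  have hgs : 0 < 1 - g * s := by nlinarith
  have e1 : 1 - t * s ≤ -a * a' := by linarith
  have hts1 : 0 < 1 - t * s := by
    rcases le_or_gt 0 t with h | h
    · rcases le_or_gt 0 s with h' | h' <;> nlinarith
    · have : 0 < s := by linarith
      nlinarith
  have e2 : (1 - t * s) ^ 2 ≤ (-a * a') ^ 2 := pow_le_pow_left₀ hts1.le e1 2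
  have e3 : (1 - t * s) ^ 2 * (1 + g ^ 2) ≤ (1 - g * t) ^ 2 * a' ^ 2 := by
    have : (-a * a') ^ 2 * (1 + g ^ 2) ≤ (1 - g * t) ^ 2 * a' ^ 2 := by
      nlinarith [mul_le_mul_of_nonneg_right h3 (sq_nonneg a')]
    nlinarith [mul_le_mul_of_nonneg_right e2 (by positivity : (0 : ℝ) ≤ 1 + g ^ 2)]
  have hbr : 0 < (g + s) * (1 - t ^ 2) + 2 * t * (1 - s * g) := by
    rcases le_or_gt 0 t with h | h
    · have : 0 < g + s := by linarith
      have : 0 < 1 - t ^ 2 := by nlinarith
      have : 0 ≤ 2 * t * (1 - s * g) := by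
        apply mul_nonneg (by linarith)
        nlinarith
      nlinarith [mul_pos ‹0 < g + s› ‹0 < 1 - t ^ 2›]
    · have hq : -t < s := by linarith
      have hs0 : 0 < s := by linarith
      have e : (g + s) * (1 - t ^ 2) + 2 * t * (1 - s * g) =
          (g - s) * (1 + s ^ 2) + (s + t) * ((g + s) * (s - t) + 2 * (1 - s * g)) := by ring
      rw [e]
      have e' : 0 < (g + s) * (s - t) + 2 * (1 - s * g) := by
        have : 0 < (g + s) * (s - t) := by
          apply mul_pos <;> linarith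
        nlinarith
      have e'' : 0 ≤ (g - s) * (1 + s ^ 2) := mul_nonneg (by linarith) (by positivity)
      nlinarith [mul_pos (by linarith : 0 < s + t) e']
  have hid : (1 - t * s) ^ 2 * (1 + g ^ 2) - (1 - g * t) ^ 2 * (1 + s ^ 2) =
      (g - s) * ((g + s) * (1 - t ^ 2) + 2 * t * (1 - s * g)) := by ring
  have e4 : a' ^ 2 = 1 + s ^ 2 - Y := by linarith
  rw [e4] at e3
  have h6 : 0 ≤ (1 - g * t) ^ 2 * Y := by positivity
  have h7 : (g - s) * ((g + s) * (1 - t ^ 2) + 2 * t * (1 - s * g)) + (1 - g * t) ^ 2 * Y ≤ 0 := by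
    linarith
  have h8 : 0 ≤ (g - s) * ((g + s) * (1 - t ^ 2) + 2 * t * (1 - s * g)) :=
    mul_nonneg (by linarith) hbr.le
  have h9 : (g - s) * ((g + s) * (1 - t ^ 2) + 2 * t * (1 - s * g)) = 0 := by linarith
  have h10 : (1 - g * t) ^ 2 * Y = 0 := by linarith
  constructor
  · rcases mul_eq_zero.1 h9 with h | h
    · linarith
    · linarith
  · rcases mul_eq_zero.1 h10 with h | h
    · have : 0 < (1 - g * t) ^ 2 := by positivity
      linarith
    · exact h

/-- The combinatorial part. -/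
theorem color_abs {ι : Type} {n N : ℕ} (col : (Fin n → ℝ) → Fin N)
    (hcol : ∀ y y', col y = col y' → 0 ≤ ∑ m, y m * y' m) (y : ι → Fin n → ℝ) (a τ : ι → ℝ) (g : ℝ)
    (T : ι → ι → Prop) (h1 : ∀ i, a i ^ 2 + ∑ m, y i m ^ 2 = 1 + τ i ^ 2) (h2 : ∀ i, τ i ≤ g)
    (hg : g < 1) (h3 : ∀ i, a i < 0 → (1 + g ^ 2) * a i ^ 2 ≤ (1 - g * τ i) ^ 2)
    (h4 : ∀ i j, T i j → a i * a j + ∑ m, y i m * y j m = τ i * τ j - 1)
    (h5 : ∀ i j, T i j → 0 < τ i + τ j) :
    ∃ c : ι → Fin (N + 1), ∀ i j, T i j → c i ≠ c j := by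
  classical
  set Sp : ι → Prop := fun i => ∑ m, y i m ^ 2 = 0 ∧ 0 < a i ∧ τ i = g with hSp
  refine ⟨fun i => if Sp i then Fin.last N else Fin.castSucc (col (y i)), fun i j hT he => ?_⟩
  have hl : ∀ p : Fin N, Fin.castSucc p ≠ Fin.last N := fun p => (Fin.castSucc_lt_last p).ne
  have e4 := h4 i j hT
  have e5 := h5 i j hT
  by_cases hi : Sp i
  · by_cases hj : Sp j
    · have hy : ∀ m, y i m = 0 := by
        intro m
        have := (Finset.sum_eq_zero_iff_of_nonneg fun m _ => sq_nonneg (y i m)).1 hi.1 m (mem_univ m)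
        exact pow_eq_zero_iff (two_ne_zero) |>.1 this
      have e : ∑ m, y i m * y j m = 0 := Finset.sum_eq_zero fun m _ => by rw [hy m, zero_mul]
      rw [e, hi.2.2, hj.2.2] at e4
      rw [hi.2.2, hj.2.2] at e5
      nlinarith [mul_pos hi.2.1 hj.2.1]
    · simp only [hi, hj, if_true, if_false] at he
      exact hl _ he.symm
  · by_cases hj : Sp j
    · simp only [hi, hj, if_true, if_false] at he
      exact hl _ he
    · simp only [hi, hj, if_false] at he
      have he' := hcol _ _ (Fin.castSucc_injective _ he)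
      have hneg : a i * a j < 0 := by
        have : τ i * τ j < 1 := by
          have := h2 i
          have := h2 j
          have : 0 < g := by linarith
          rcases le_or_gt 0 (τ i) with h | h
          · rcases le_or_gt 0 (τ j) with h' | h' <;> nlinarith
          · have : 0 < τ j := by linarith
            nlinarith
        linarith
      rcases mul_neg_iff.1 hneg with ⟨ha, hb⟩ | ⟨ha, hb⟩
      · -- `a i > 0 > a j`
        have hcomm : ∑ m, y j m * y i m = ∑ m, y i m * y j m :=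
          Finset.sum_congr rfl fun m _ => mul_comm _ _
        have := key (y := y j) (y' := y i) (h1 i) (h2 j) (h2 i) hg hb ha (h3 j hb) (by linarith)
          (by rw [hcomm]; linarith) (by rw [hcomm]; exact he')
        exact hi ⟨this.2, ha, this.1⟩
      · have := key (y := y i) (y' := y j) (h1 j) (h2 i) (h2 j) hg ha hb (h3 i ha) e5 e4 he'
        exact hj ⟨this.2, hb, this.1⟩

/-- Coordinates along a vector and its orthogonal complement. -/
theorem frame {E : Type} [NormedAddCommGroup E] [InnerProductSpace ℝ E] {n : ℕ}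
    (hE : finrank ℝ E = n + 1) {z : E} (hz : z ≠ 0) :
    ∃ Y : E → Fin n → ℝ, ∀ u v, inner ℝ u v =
      ∑ m, Y u m * Y v m + inner ℝ z u * inner ℝ z v / ‖z‖ ^ 2 := by
  have : FiniteDimensional ℝ E := FiniteDimensional.of_finrank_pos (by omega)
  have : Fact (finrank ℝ E = n + 1) := ⟨hE⟩
  have hz2 : ‖z‖ ^ 2 ≠ 0 := by
    have := norm_pos_iff.2 hz
    positivity
  let b := OrthonormalBasis.fromOrthogonalSpanSingleton (𝕜 := ℝ) n hz
  have he : ∀ u : E, u - (inner ℝ z u / ‖z‖ ^ 2) • z ∈ (Submodule.span ℝ {z})ᗮ := by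
    intro u
    rw [Submodule.mem_orthogonal_singleton_iff_inner_right, inner_sub_right,
      real_inner_smul_right, real_inner_self_eq_norm_sq]
    field_simp
    ring
  refine ⟨fun u m => inner ℝ (⟨_, he u⟩ : (Submodule.span ℝ {z})ᗮ) (b m), fun u v => ?_⟩
  have h := b.sum_inner_mul_inner (⟨_, he u⟩ : (Submodule.span ℝ {z})ᗮ) ⟨_, he v⟩
  have h' : ∑ m, inner ℝ (⟨_, he u⟩ : (Submodule.span ℝ {z})ᗮ) (b m) *
      inner ℝ (⟨_, he v⟩ : (Submodule.span ℝ {z})ᗮ) (b m) =
      inner ℝ (⟨_, he u⟩ : (Submodule.span ℝ {z})ᗮ) ⟨_, he v⟩ := by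
    rw [← h]
    refine Finset.sum_congr rfl fun m _ => ?_
    rw [real_inner_comm (b m) (⟨_, he v⟩ : (Submodule.span ℝ {z})ᗮ)]
  simp only [h']
  rw [Submodule.coe_inner]
  simp only
  rw [inner_sub_left, inner_sub_right, inner_sub_right, real_inner_smul_left,
    real_inner_smul_left, real_inner_smul_right, real_inner_smul_right,
    real_inner_self_eq_norm_sq, real_inner_comm z u]
  field_simp
  ring

end C1B
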