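import Pool.Agent.C1B.Ball

/-!
# Cones of half angle 45 degrees in three-space
-/

namespace C1B

open MeasureTheory Metric Finset Module

theorem exists_isom {E F : Type} [NormedAddCommGroup E] [InnerProductSpace ℝ E]
    [NormedAddCommGroup F] [InnerProductSpace ℝ F] {n : ℕ} (hE : finrank ℝ E = n + 1)
    (hF : finrank ℝ F = n + 1) {u : E} {v : F} (hu : ‖u‖ = 1) (hv : ‖v‖ = 1) :
    ∃ f : E ≃ₗᵢ[ℝ] F, f u = v := by
  have : FiniteDimensional ℝ E := FiniteDimensional.of_finrank_pos (by omega)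
  have : FiniteDimensional ℝ F := FiniteDimensional.of_finrank_pos (by omega)
  have h1 : Orthonormal ℝ (({0} : Set (Fin (n + 1))).domRestrict (fun _ => u)) :=
    ⟨fun _ => hu, fun i j hij => (hij (Subsingleton.elim _ _)).elim⟩
  have h2 : Orthonormal ℝ (({0} : Set (Fin (n + 1))).domRestrict (fun _ => v)) :=
    ⟨fun _ => hv, fun i j hij => (hij (Subsingleton.elim _ _)).elim⟩
  obtain ⟨b, hb⟩ := h1.exists_orthonormalBasis_extension_of_card_eq (by simpa using hE)
  obtain ⟨b', hb'⟩ := h2.exists_orthonormalBasis_extension_of_card_eq (by simpa using hF)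
  refine ⟨b.repr.trans b'.repr.symm, ?_⟩
  have e1 := hb 0 rfl
  have e2 := hb' 0 rfl
  rw [← e1, ← e2]
  simp

/-- The model cone. -/
def mc : Set (ℝ × EuclideanSpace ℝ (Fin 2)) := {z | z.1 ^ 2 + ‖z.2‖ ^ 2 < 1 ∧ ‖z.2‖ ≤ z.1}

theorem measurable_mc : MeasurableSet mc := by
  have h1 : IsOpen {z : ℝ × EuclideanSpace ℝ (Fin 2) | z.1 ^ 2 + ‖z.2‖ ^ 2 < 1} :=
    isOpen_lt (by fun_prop) continuous_const
  have h2 : IsClosed {z : ℝ × EuclideanSpace ℝ (Fin 2) | ‖z.2‖ ≤ z.1} :=
    isClosed_le (by fun_prop) (by fun_prop)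
  exact h1.measurableSet.inter h2.measurableSet

theorem lint_pow {a b : ℝ} (hab : a ≤ b) {f : ℝ → ℝ} (hf : Continuous f)
    (h0 : ∀ t ∈ Set.Ioc a b, 0 ≤ f t) :
    ∫⁻ t in Set.Ioc a b, ENNReal.ofReal (f t) = ENNReal.ofReal (∫ t in a..b, f t) := by
  rw [intervalIntegral.integral_of_le hab, ofReal_integral_eq_lintegral_ofReal]
  · exact (hf.integrableOn_Icc).mono_set Set.Ioc_subset_Icc_self
  · exact (ae_restrict_iff' measurableSet_Ioc).2 (Filter.Eventually.of_forall h0)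

theorem volume_mc : ENNReal.ofReal (Real.pi * 4 / 3) ≤ 7 * volume mc := by
  have hpi := Real.pi_pos
  have h1 : volume mc = ∫⁻ t, volume (Prod.mk t ⁻¹' mc) := by
    rw [Measure.volume_eq_prod, Measure.prod_apply measurable_mc]
  have hA : ∀ t ∈ Set.Ioc (0 : ℝ) (707 / 1000),
      ENNReal.ofReal (Real.pi * t ^ 2) ≤ volume (Prod.mk t ⁻¹' mc) := by
    intro t ht
    have hsub : ball (0 : EuclideanSpace ℝ (Fin 2)) t ⊆ Prod.mk t ⁻¹' mc := by
      intro w hw
      rw [mem_ball_zero_iff] at hw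
      have h2 := pow_le_pow_left₀ (norm_nonneg w) hw.le 2
      refine ⟨?_, hw.le⟩
      have h3 : t ^ 2 ≤ (707 / 1000) ^ 2 := pow_le_pow_left₀ ht.1.le ht.2 2
      simp only
      linarith
    refine le_trans (le_of_eq ?_) (measure_mono hsub)
    rw [EuclideanSpace.volume_ball_fin_two, ← ENNReal.ofReal_pow ht.1.le,
      ← ENNReal.ofReal_mul (by positivity), mul_comm]
  have hB : ∀ t ∈ Set.Ioc (708 / 1000 : ℝ) 1,
      ENNReal.ofReal (Real.pi * (1 - t ^ 2)) ≤ volume (Prod.mk t ⁻¹' mc) := by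
    intro t ht
    have ht0 : 0 < t := by linarith [ht.1]
    have hnn : 0 ≤ 1 - t ^ 2 := by nlinarith [ht.2]
    have hsub : ball (0 : EuclideanSpace ℝ (Fin 2)) (Real.sqrt (1 - t ^ 2)) ⊆
        Prod.mk t ⁻¹' mc := by
      intro w hw
      rw [mem_ball_zero_iff] at hw
      have h2 : ‖w‖ ^ 2 < 1 - t ^ 2 := by
        have := pow_lt_pow_left₀ hw (norm_nonneg w) two_ne_zero
        rwa [Real.sq_sqrt hnn] at this
      refine ⟨by simp only; linarith, ?_⟩
      have h3 : (708 / 1000 : ℝ) ^ 2 ≤ t ^ 2 := pow_le_pow_left₀ (by norm_num) ht.1.le 2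
      simp only
      have h4 : ‖w‖ ^ 2 ≤ t ^ 2 := by linarith
      exact le_of_sq_le_sq h4 ht0.le
    refine le_trans (le_of_eq ?_) (measure_mono hsub)
    rw [EuclideanSpace.volume_ball_fin_two, ← ENNReal.ofReal_pow (Real.sqrt_nonneg _),
      Real.sq_sqrt hnn, ← ENNReal.ofReal_mul hnn, mul_comm]
  have hdisj : Disjoint (Set.Ioc (0 : ℝ) (707 / 1000)) (Set.Ioc (708 / 1000 : ℝ) 1) := by
    rw [Set.disjoint_left]
    rintro t ⟨_, h2⟩ ⟨h3, _⟩
    linarith
  have h2 : ENNReal.ofReal (∫ t in (0 : ℝ)..(707 / 1000), Real.pi * t ^ 2) +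
      ENNReal.ofReal (∫ t in (708 / 1000 : ℝ)..1, Real.pi * (1 - t ^ 2)) ≤ volume mc := by
    rw [← lint_pow (by norm_num) (by fun_prop) (fun t _ => by positivity),
      ← lint_pow (by norm_num) (by fun_prop) (fun t ht => by
        have h5 : t ^ 2 ≤ 1 := by nlinarith [ht.1, ht.2]
        exact mul_nonneg hpi.le (by linarith)), h1]
    refine le_trans (add_le_add (setLIntegral_mono' measurableSet_Ioc hA)
      (setLIntegral_mono' measurableSet_Ioc hB)) ?_
    rw [← lintegral_union measurableSet_Ioc hdisj]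
    exact setLIntegral_le_lintegral _ _
  have e1 : ∫ t in (0 : ℝ)..(707 / 1000), Real.pi * t ^ 2 = Real.pi * ((707 / 1000) ^ 3 / 3) := by
    rw [intervalIntegral.integral_const_mul, integral_pow]
    norm_num
  have e2 : ∫ t in (708 / 1000 : ℝ)..1, Real.pi * (1 - t ^ 2) =
      Real.pi * ((1 - 708 / 1000) - (1 - (708 / 1000) ^ 3) / 3) := by
    rw [intervalIntegral.integral_const_mul, intervalIntegral.integral_sub
      (continuous_const.intervalIntegrable _ _) ((continuous_pow 2).intervalIntegrable _ _),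
      integral_pow]
    norm_num
  rw [e1, e2, ← ENNReal.ofReal_add (by positivity) (by norm_num; positivity)] at h2
  have h7 : (7 : ENNReal) = ENNReal.ofReal 7 := by norm_num
  refine le_trans ?_ (mul_le_mul_right h2 7)
  rw [h7, ← ENNReal.ofReal_mul (by norm_num)]
  apply ENNReal.ofReal_le_ofReal
  nlinarith

/-- The cone of half angle 45 degrees about `u`. -/
def cn (u : EuclideanSpace ℝ (Fin 3)) : Set (EuclideanSpace ℝ (Fin 3)) :=
  {x | 0 ≤ inner ℝ x u ∧ ‖x‖ ^ 2 * ‖u‖ ^ 2 ≤ 2 * inner ℝ x u ^ 2}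

theorem measurable_cn (u : EuclideanSpace ℝ (Fin 3)) : MeasurableSet (cn u) := by
  have h1 : IsClosed {x : EuclideanSpace ℝ (Fin 3) | 0 ≤ inner ℝ x u} :=
    isClosed_le continuous_const (by fun_prop)
  have h2 : IsClosed {x : EuclideanSpace ℝ (Fin 3) | ‖x‖ ^ 2 * ‖u‖ ^ 2 ≤ 2 * inner ℝ x u ^ 2} :=
    isClosed_le (by fun_prop) (by fun_prop)
  exact h1.measurableSet.inter h2.measurableSet

theorem volume_cn (u : EuclideanSpace ℝ (Fin 3)) :
    volume (ball (0 : EuclideanSpace ℝ (Fin 3)) 1) ≤ 7 * volume (cn u ∩ ball 0 1) := by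
  by_cases hu : u = 0
  · have : cn u ∩ ball 0 1 = ball 0 1 := by
      apply Set.inter_eq_right.2
      intro x _
      simp [cn, hu]
    rw [this]
    calc volume (ball (0 : EuclideanSpace ℝ (Fin 3)) 1)
        = 1 * volume (ball (0 : EuclideanSpace ℝ (Fin 3)) 1) := (one_mul _).symm
      _ ≤ 7 * volume (ball (0 : EuclideanSpace ℝ (Fin 3)) 1) := by gcongr; norm_num
  have hnu : 0 < ‖u‖ := norm_pos_iff.2 hu
  set e : WithLp 2 (ℝ × EuclideanSpace ℝ (Fin 2)) := WithLp.toLp 2 (1, 0) with he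
  have hin : ∀ z : WithLp 2 (ℝ × EuclideanSpace ℝ (Fin 2)), inner ℝ z e = z.fst := by
    intro z
    rw [WithLp.prod_inner_apply]
    simp [he]
  have hnz : ∀ z : WithLp 2 (ℝ × EuclideanSpace ℝ (Fin 2)), ‖z‖ ^ 2 = z.fst ^ 2 + ‖z.snd‖ ^ 2 := by
    intro z
    rw [← real_inner_self_eq_norm_sq, WithLp.prod_inner_apply, real_inner_self_eq_norm_sq,
      real_inner_self_eq_norm_sq]
    simp
  have hne : ‖e‖ = 1 := by
    have h1 := hnz e
    simp only [he] at h1
    have h2 : ‖e‖ ^ 2 = 1 := by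
      rw [h1]; simp
    have h3 : 0 ≤ ‖e‖ := norm_nonneg _
    nlinarith
  have hF : finrank ℝ (WithLp 2 (ℝ × EuclideanSpace ℝ (Fin 2))) = 2 + 1 := by
    rw [(WithLp.linearEquiv 2 ℝ (ℝ × EuclideanSpace ℝ (Fin 2))).finrank_eq, Module.finrank_prod]
    simp
  obtain ⟨f, hf⟩ := exists_isom (E := WithLp 2 (ℝ × EuclideanSpace ℝ (Fin 2)))
    (F := EuclideanSpace ℝ (Fin 3)) hF (by simp) hne
    (v := ‖u‖⁻¹ • u) (by
      rw [norm_smul, norm_inv, norm_norm, inv_mul_cancel₀ hnu.ne'])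
  have hfu : ∀ z, inner ℝ (f z) u = ‖u‖ * z.fst := by
    intro z
    have h1 : u = ‖u‖ • f e := by
      rw [hf, smul_smul, mul_inv_cancel₀ hnu.ne', one_smul]
    have h2 : inner ℝ (f z) u = ‖u‖ * inner ℝ (f z) (f e) := by
      rw [← real_inner_smul_right, ← h1]
    rw [h2, f.inner_map_map, hin]
  have hpre : (fun z => f (WithLp.toLp 2 z)) ⁻¹' (cn u ∩ ball 0 1) = mc := by
    ext ⟨t, w⟩
    simp only [Set.mem_preimage, Set.mem_inter_iff, cn, Set.mem_setOf_eq, mem_ball_zero_iff,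
      hfu, f.norm_map, hnz, mc, WithLp.toLp_fst, WithLp.toLp_snd]
    have h1 : ‖(WithLp.toLp 2 (t, w) : WithLp 2 (ℝ × EuclideanSpace ℝ (Fin 2)))‖ < 1 ↔
        t ^ 2 + ‖w‖ ^ 2 < 1 := by
      have h2 := hnz (WithLp.toLp 2 (t, w))
      simp only [WithLp.toLp_fst, WithLp.toLp_snd] at h2
      rw [← h2]
      constructor
      · intro h
        have := norm_nonneg (WithLp.toLp 2 (t, w) : WithLp 2 (ℝ × EuclideanSpace ℝ (Fin 2)))
        nlinarith
      · intro h
        by_contra hcon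
        push Not at hcon
        nlinarith
    rw [h1]
    constructor
    · rintro ⟨⟨h2, h3⟩, h4⟩
      have h5 : 0 ≤ t := by
        by_contra hcon
        push Not at hcon
        have := mul_neg_of_pos_of_neg hnu hcon
        linarith
      refine ⟨h4, ?_⟩
      have h6 : ‖w‖ ^ 2 ≤ t ^ 2 := by
        by_contra hcon
        push Not at hcon
        have : 0 < ‖u‖ ^ 2 := by positivity
        nlinarith
      exact le_of_sq_le_sq h6 h5
    · rintro ⟨h2, h3⟩
      have h5 : 0 ≤ t := (norm_nonneg w).trans h3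
      have h6 : ‖w‖ ^ 2 ≤ t ^ 2 := pow_le_pow_left₀ (norm_nonneg _) h3 2
      have : 0 < ‖u‖ ^ 2 := by positivity
      refine ⟨⟨by positivity, ?_⟩, h2⟩
      nlinarith
  have hmp : MeasurePreserving (fun z : ℝ × EuclideanSpace ℝ (Fin 2) => f (WithLp.toLp 2 z)) :=
    f.measurePreserving.comp (WithLp.volume_preserving_toLp ℝ (EuclideanSpace ℝ (Fin 2)))
  have h1 := hmp.measure_preimage (s := cn u ∩ ball 0 1)
    ((measurable_cn u).inter measurableSet_ball).nullMeasurableSet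
  rw [hpre] at h1
  rw [← h1, EuclideanSpace.volume_ball_fin_three]
  simpa using volume_mc

/-- Two members of a cone of half angle 45 degrees have a nonnegative inner product. -/
theorem cn_acute {x u v : EuclideanSpace ℝ (Fin 3)} (hx : x ≠ 0) (hu : x ∈ cn u) (hv : x ∈ cn v) :
    0 ≤ inner ℝ u v := by
  obtain ⟨Y, hY⟩ := frame (n := 2) (by simp) hx
  have hnx : 0 < ‖x‖ ^ 2 := by
    have := norm_pos_iff.2 hx
    positivity
  have key1 : ∀ w, x ∈ cn w → ∑ m, Y w m ^ 2 ≤ inner ℝ x w ^ 2 / ‖x‖ ^ 2 := by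
    intro w hw
    have h1 := hY w w
    rw [real_inner_self_eq_norm_sq] at h1
    have h2 := hw.2
    have h3 : ∑ m, Y w m ^ 2 = ‖w‖ ^ 2 - inner ℝ x w ^ 2 / ‖x‖ ^ 2 := by
      simp only [sq]
      simp only [sq] at h1
      linarith
    rw [h3]
    have h4 : ‖w‖ ^ 2 ≤ 2 * inner ℝ x w ^ 2 / ‖x‖ ^ 2 := by
      rw [le_div_iff₀ hnx]
      linarith
    have h5 : 2 * inner ℝ x w ^ 2 / ‖x‖ ^ 2 = 2 * (inner ℝ x w ^ 2 / ‖x‖ ^ 2) := by ring
    linarith
  have h1 := key1 u hu
  have h2 := key1 v hv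
  have h3 := Finset.sum_mul_sq_le_sq_mul_sq univ (Y u) (Y v)
  have h4 : 0 ≤ inner ℝ x u * inner ℝ x v / ‖x‖ ^ 2 :=
    div_nonneg (mul_nonneg hu.1 hv.1) hnx.le
  have h5 : (∑ m, Y u m * Y v m) ^ 2 ≤ (inner ℝ x u * inner ℝ x v / ‖x‖ ^ 2) ^ 2 := by
    refine h3.trans ?_
    have e : (inner ℝ x u * inner ℝ x v / ‖x‖ ^ 2) ^ 2 =
        (inner ℝ x u ^ 2 / ‖x‖ ^ 2) * (inner ℝ x v ^ 2 / ‖x‖ ^ 2) := by
      field_simp
    rw [e]
    exact mul_le_mul h1 h2 (Finset.sum_nonneg fun m _ => sq_nonneg _) (by positivity)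
  have h6 := abs_le_of_sq_le_sq' h5 h4
  rw [hY u v]
  linarith [h6.1]

/-- In a finite family of vectors of three-space one finds a seventh without obtuse angles. -/
theorem acute3 {ι : Type} [DecidableEq ι] (A : Finset ι) (y : ι → EuclideanSpace ℝ (Fin 3)) :
    ∃ S ⊆ A, A.card ≤ 7 * S.card ∧ ∀ i ∈ S, ∀ j ∈ S, 0 ≤ inner ℝ (y i) (y j) := by
  classical
  by_contra hcon
  push Not at hcon
  set B : Set (EuclideanSpace ℝ (Fin 3)) := ball 0 1 with hB
  have hBpos : volume B ≠ 0 := (isOpen_ball.measure_pos volume ⟨0, by simp⟩).ne'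
  have hBfin : volume B ≠ ⊤ := measure_ball_lt_top.ne
  have hcount : ∀ x : EuclideanSpace ℝ (Fin 3), x ≠ 0 →
      7 * (A.filter fun i => x ∈ cn (y i)).card + 1 ≤ A.card := by
    intro x hx
    by_contra hc
    push Not at hc
    obtain ⟨i, hi, j, hj, hij⟩ := hcon (A.filter fun i => x ∈ cn (y i)) (Finset.filter_subset _ _)
      (by omega)
    have := cn_acute hx (Finset.mem_filter.1 hi).2 (Finset.mem_filter.1 hj).2
    linarith
  have hint : ∫⁻ x in B, (7 * ∑ i ∈ A, (cn (y i)).indicator 1 x + 1) ≤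
      ∫⁻ _x in B, (A.card : ENNReal) := by
    refine lintegral_mono_ae ?_
    have h0 : ∀ᵐ x ∂(volume.restrict B : Measure (EuclideanSpace ℝ (Fin 3))), x ≠ 0 := by
      apply ae_restrict_of_ae
      exact compl_mem_ae_iff.2 (measure_singleton _)
    filter_upwards [h0] with x hx
    have h1 : (∑ i ∈ A, (cn (y i)).indicator 1 x : ENNReal) =
        ((A.filter fun i => x ∈ cn (y i)).card : ENNReal) := by
      simp only [Set.indicator_apply, Pi.one_apply, Finset.sum_boole]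
    rw [h1]
    exact_mod_cast hcount x hx
  have hlhs : ∫⁻ x in B, (7 * ∑ i ∈ A, (cn (y i)).indicator 1 x + 1) =
      7 * ∑ i ∈ A, volume (cn (y i) ∩ B) + volume B := by
    rw [lintegral_add_right _ measurable_const, lintegral_const_mul, lintegral_finset_sum]
    · congr 2
      · refine Finset.sum_congr rfl fun i _ => ?_
        rw [lintegral_indicator_one (measurable_cn _), Measure.restrict_apply (measurable_cn _)]
      · simp
    · intro i _
      exact measurable_one.indicator (measurable_cn _)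
    · exact Finset.measurable_sum _ fun i _ => measurable_one.indicator (measurable_cn _)
  rw [hlhs, setLIntegral_const] at hint
  have hge : (A.card : ENNReal) * volume B ≤ 7 * ∑ i ∈ A, volume (cn (y i) ∩ B) := by
    rw [Finset.mul_sum, ← nsmul_eq_mul, ← Finset.sum_const]
    exact Finset.sum_le_sum fun i _ => volume_cn (y i)
  have h1 : (A.card : ENNReal) * volume B + volume B ≤ (A.card : ENNReal) * volume B :=
    (add_le_add hge le_rfl).trans hint
  have h2 : (A.card : ENNReal) * volume B ≠ ⊤ := ENNReal.mul_ne_top (by simp) hBfin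
  have h3 : volume B ≤ 0 := by
    have := (ENNReal.add_le_add_iff_left h2).1 (h1.trans (le_of_eq (add_zero _).symm))
    exact this
  exact hBpos (le_antisymm h3 bot_le)

end C1B
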