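import Pool.Agent.C1B.Ball

/-!
# Euclidean balls and ellipsoids: the conformal frame
-/

namespace C1B

open Finset Module C1E C1G

section

variable {V : Type} [NormedAddCommGroup V] [InnerProductSpace ℝ V]

/-- A frame `(p, h)`: the sphere with centre `p` and radius `h` (imaginary) that meets all balls at
acute angles. -/
theorem common {n : ℕ} (hn : 0 < n) (x : Fin n → V) (c : Fin n → ℝ) (hc : ∀ i, 0 < c i)
    (hm : ∀ i j, ‖x i - x j‖ ≤ c i + c j) :
    ∃ (p : V) (h : ℝ), 0 < h ∧ ∀ i, ‖x i - p‖ ^ 2 + h ^ 2 - c i ^ 2 < 2 * c i * h := by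
  classical
  have : Nonempty (Fin n) := ⟨⟨0, hn⟩⟩
  set A : Fin n → ℝ := fun k => ‖x k‖ ^ 2 - c k ^ 2 with hA
  set Th : (Fin n → ℝ) → ℝ := fun w =>
    ∑ k, w k * A k - ‖∑ k, w k • x k‖ ^ 2 - (∑ k, w k * c k) ^ 2 with hTh
  have hcont : Continuous Th := by
    simp only [hTh]
    fun_prop
  have hne : (stdSimplex ℝ (Fin n)).Nonempty := ⟨_, single_mem_stdSimplex ℝ (⟨0, hn⟩ : Fin n)⟩
  obtain ⟨w, hw, hmax⟩ := (isCompact_stdSimplex ℝ (Fin n)).exists_isMaxOn hne hcont.continuousOn
  -- the maximum is negative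
  have hneg : ∀ v ∈ stdSimplex ℝ (Fin n), Th v < 0 := by
    intro v hv
    obtain ⟨hv0, hv1⟩ := hv
    have e1 : ∑ k, ∑ l, v k * v l * (‖x k - x l‖ ^ 2 - (c k + c l) ^ 2) = 2 * Th v := by
      have e2 : ∀ k l, v k * v l * (‖x k - x l‖ ^ 2 - (c k + c l) ^ 2) =
          v k * A k * v l + v k * (v l * A l) - 2 * (inner ℝ (v k • x k) (v l • x l))
            - 2 * (v k * c k) * (v l * c l) := by
        intro k l
        rw [norm_sub_sq_real, real_inner_smul_left, real_inner_smul_right]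
        simp only [hA]
        ring
      simp only [e2, Finset.sum_sub_distrib, Finset.sum_add_distrib, ← Finset.mul_sum,
        ← Finset.sum_mul, hv1, ← inner_sum, ← sum_inner, real_inner_self_eq_norm_sq]
      simp only [hTh]
      ring
    obtain ⟨k0, hk0⟩ : ∃ k, 0 < v k := by
      by_contra hcon
      push Not at hcon
      have : ∑ k, v k ≤ 0 := Finset.sum_nonpos fun k _ => hcon k
      linarith
    have hterm : ∀ k l, v k * v l * (‖x k - x l‖ ^ 2 - (c k + c l) ^ 2) ≤ 0 := by
      intro k l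
      apply mul_nonpos_of_nonneg_of_nonpos (mul_nonneg (hv0 k) (hv0 l))
      have := pow_le_pow_left₀ (norm_nonneg _) (hm k l) 2
      linarith
    have h1 : ∑ k, ∑ l, v k * v l * (‖x k - x l‖ ^ 2 - (c k + c l) ^ 2) < 0 := by
      refine Finset.sum_neg' (fun k _ => Finset.sum_nonpos fun l _ => hterm k l)
        ⟨k0, mem_univ _, Finset.sum_neg' (fun l _ => hterm k0 l) ⟨k0, mem_univ _, ?_⟩⟩
      rw [sub_self, norm_zero]
      have := hc k0
      have : 0 < v k0 * v k0 * (c k0 + c k0) ^ 2 := by positivity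
      linarith
    linarith
  refine ⟨∑ k, w k • x k, ∑ k, w k * c k, ?_, fun i => ?_⟩
  · obtain ⟨hw0, hw1⟩ := hw
    obtain ⟨k0, hk0⟩ : ∃ k, 0 < w k := by
      by_contra hcon
      push Not at hcon
      have : ∑ k, w k ≤ 0 := Finset.sum_nonpos fun k _ => hcon k
      linarith
    exact Finset.sum_pos' (fun k _ => mul_nonneg (hw0 k) (hc k).le)
      ⟨k0, mem_univ _, mul_pos hk0 (hc k0)⟩
  · set p := ∑ k, w k • x k with hp
    set h := ∑ k, w k * c k with hh
    set L := ∑ k, w k * A k with hL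
    have hThw : Th w = L - ‖p‖ ^ 2 - h ^ 2 := rfl
    set a := A i - L - 2 * inner ℝ p (x i - p) - 2 * h * (c i - h) with ha
    set b := ‖x i - p‖ ^ 2 + (c i - h) ^ 2 with hb
    have hb0 : 0 ≤ b := by positivity
    -- first order condition
    have hfoc : ∀ t : ℝ, 0 ≤ t → t ≤ 1 → t * a - t ^ 2 * b ≤ 0 := by
      intro t ht0 ht1
      set v : Fin n → ℝ := fun k => (1 - t) * w k + t * (if k = i then 1 else 0) with hv
      have hv1 : ∀ f : Fin n → ℝ, ∑ k, v k * f k = (1 - t) * ∑ k, w k * f k + t * f i := by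
        intro f
        simp only [hv, add_mul, Finset.sum_add_distrib, Finset.mul_sum, mul_assoc, ite_mul,
          one_mul, zero_mul, mul_ite, mul_zero, Finset.sum_ite_eq', mem_univ, if_true]
      have hv2 : ∑ k, v k • x k = p + t • (x i - p) := by
        have : ∑ k, v k • x k = (1 - t) • p + t • x i := by
          simp only [hv, add_smul, Finset.sum_add_distrib, hp, Finset.smul_sum, mul_smul,
            ite_smul, one_smul, zero_smul, smul_ite, smul_zero, Finset.sum_ite_eq', mem_univ,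
            if_true]
        rw [this]
        module
      have hvs : v ∈ stdSimplex ℝ (Fin n) := by
        constructor
        · intro k
          have := hw.1 k
          simp only [hv]
          split_ifs <;> nlinarith
        · have := hv1 fun _ => 1
          simp only [mul_one] at this
          rw [this, hw.2]; ring
      have h1 := hmax hvs
      have h2 : Th v = (1 - t) * L + t * A i - ‖p + t • (x i - p)‖ ^ 2 -
          ((1 - t) * h + t * c i) ^ 2 := by
        simp only [hTh]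
        rw [hv1, hv2, hv1]
      have h3 : ‖p + t • (x i - p)‖ ^ 2 = ‖p‖ ^ 2 + 2 * t * inner ℝ p (x i - p) +
          t ^ 2 * ‖x i - p‖ ^ 2 := by
        rw [norm_add_sq_real, real_inner_smul_right, norm_smul, mul_pow, Real.norm_eq_abs, sq_abs]
        ring
      have h4 : Th v ≤ Th w := h1
      rw [h2, h3, hThw] at h4
      simp only [ha, hb]
      linarith
    have ha0 : a ≤ 0 := by
      by_contra hcon
      push Not at hcon
      have h1 := hfoc (a / (a + b)) (by positivity) (by
        rw [div_le_one (by linarith)]; linarith)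
      have h2 : a / (a + b) * a - (a / (a + b)) ^ 2 * b = a * (a / (a + b)) ^ 2 := by
        have : a + b ≠ 0 := by linarith
        field_simp
        ring
      rw [h2] at h1
      have : 0 < a * (a / (a + b)) ^ 2 := by positivity
      linarith
    have hneg' := hneg w hw
    rw [hThw] at hneg'
    have h5 : ‖x i - p‖ ^ 2 = ‖x i‖ ^ 2 - 2 * inner ℝ p (x i - p) - ‖p‖ ^ 2 := by
      rw [norm_sub_sq_real, inner_sub_right, real_inner_self_eq_norm_sq, real_inner_comm p (x i)]
      ring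
    simp only [ha, hA] at ha0
    rw [h5]
    linarith

/-- Data of a pairwise intersecting family of balls in a conformal frame whose last basis vector is
the smallest ball. -/
theorem frame_data [FiniteDimensional ℝ V] {d : ℕ} (hV : finrank ℝ V = d) {n : ℕ} (hn : 0 < n) (x : Fin n → V)
    (c : Fin n → ℝ) (hc : ∀ i, 0 < c i) (hm : ∀ i j, ‖x i - x j‖ ≤ c i + c j) :
    ∃ (y : Fin n → Fin d → ℝ) (a τ : Fin n → ℝ) (g : ℝ),
      (∀ i, a i ^ 2 + ∑ m, y i m ^ 2 = 1 + τ i ^ 2) ∧ (∀ i, τ i ≤ g) ∧ g < 1 ∧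
      (∀ i, a i < 0 → (1 + g ^ 2) * a i ^ 2 ≤ (1 - g * τ i) ^ 2) ∧
      (∀ i j, ‖x i - x j‖ = c i + c j →
        a i * a j + ∑ m, y i m * y j m = τ i * τ j - 1) ∧
      (∀ i j, ‖x i - x j‖ = c i + c j → 0 < τ i + τ j) := by
  classical
  have : Nonempty (Fin n) := ⟨⟨0, hn⟩⟩
  obtain ⟨p, h, hh, hph⟩ := common hn x c hc hm
  set X : Fin n → V := fun i => x i - p with hX
  set τ : Fin n → ℝ := fun i => (‖X i‖ ^ 2 + h ^ 2 - c i ^ 2) / (2 * c i * h) with hτ
  set υ : Fin n → ℝ := fun i => (‖X i‖ ^ 2 - h ^ 2 - c i ^ 2) / (2 * c i * h) with hυ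
  have hτ1 : ∀ i, τ i < 1 := by
    intro i
    have := hc i
    simp only [hτ]
    rw [div_lt_one (by positivity)]
    exact hph i
  obtain ⟨i0, hi0⟩ := Finite.exists_max τ
  set Z : Fin n → WithLp 2 (V × ℝ) := fun i => WithLp.toLp 2 ((c i)⁻¹ • X i, υ i) with hZ
  have hZZ : ∀ i j, inner ℝ (Z i) (Z j) = (c i)⁻¹ * (c j)⁻¹ * inner ℝ (X i) (X j) + υ i * υ j := by
    intro i j
    simp only [hZ, WithLp.prod_inner_apply]
    rw [real_inner_smul_left, real_inner_smul_right]
    simp only [RCLike.inner_apply, conj_trivial]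
    ring
  have hXX : ∀ i j, ‖x i - x j‖ ^ 2 = ‖X i‖ ^ 2 - 2 * inner ℝ (X i) (X j) + ‖X j‖ ^ 2 := by
    intro i j
    rw [← norm_sub_sq_real]
    simp only [hX]
    congr 2
    abel
  have hZτ : ∀ i j, inner ℝ (Z i) (Z j) - τ i * τ j =
      (c i ^ 2 + c j ^ 2 - ‖x i - x j‖ ^ 2) / (2 * c i * c j) := by
    intro i j
    rw [hZZ, hXX]
    have := (hc i).ne'
    have := (hc j).ne'
    have := hh.ne'
    simp only [hτ, hυ]
    field_simp
    ring
  have hZn : ∀ i, ‖Z i‖ ^ 2 = 1 + τ i ^ 2 := by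
    intro i
    have h1 := hZτ i i
    rw [real_inner_self_eq_norm_sq, sub_self, norm_zero] at h1
    have := (hc i).ne'
    have h2 : (c i ^ 2 + c i ^ 2 - 0 ^ 2) / (2 * c i * c i) = 1 := by
      field_simp
      ring
    rw [h2] at h1
    linarith [sq (τ i)]
  have hZge : ∀ i j, τ i * τ j - 1 ≤ inner ℝ (Z i) (Z j) := by
    intro i j
    have h1 := hZτ i j
    have h2 := pow_le_pow_left₀ (norm_nonneg _) (hm i j) 2
    have := hc i
    have := hc j
    have h3 : -1 ≤ (c i ^ 2 + c j ^ 2 - ‖x i - x j‖ ^ 2) / (2 * c i * c j) := by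
      rw [le_div_iff₀ (by positivity)]
      linarith
    linarith
  have hZeq : ∀ i j, ‖x i - x j‖ = c i + c j → inner ℝ (Z i) (Z j) = τ i * τ j - 1 := by
    intro i j hij
    have h1 := hZτ i j
    have h4 := (hc i).ne'
    have h5 := (hc j).ne'
    have h3 : (c i ^ 2 + c j ^ 2 - ‖x i - x j‖ ^ 2) / (2 * c i * c j) = -1 := by
      rw [hij]
      field_simp
      ring
    linarith
  have hE : finrank ℝ (WithLp 2 (V × ℝ)) = d + 1 := by
    rw [(WithLp.linearEquiv 2 ℝ (V × ℝ)).finrank_eq, Module.finrank_prod, hV, Module.finrank_self]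
  have hz0 : Z i0 ≠ 0 := by
    intro h0
    have := hZn i0
    rw [h0, norm_zero] at this
    nlinarith [sq_nonneg (τ i0)]
  obtain ⟨Y, hY⟩ := frame hE hz0
  have hnz : 0 < ‖Z i0‖ := norm_pos_iff.2 hz0
  set g := τ i0 with hg
  have hYs : ∀ i j, inner ℝ (Z i0) (Z i) / ‖Z i0‖ * (inner ℝ (Z i0) (Z j) / ‖Z i0‖) +
      ∑ m, Y (Z i) m * Y (Z j) m = inner ℝ (Z i) (Z j) := by
    intro i j
    rw [hY (Z i) (Z j)]
    field_simp
    ring
  refine ⟨fun i => Y (Z i), fun i => inner ℝ (Z i0) (Z i) / ‖Z i0‖, τ, g, ?_, hi0, hτ1 i0, ?_,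
    ?_, ?_⟩
  · intro i
    have h1 := hYs i i
    rw [real_inner_self_eq_norm_sq, hZn] at h1
    simp only [sq]
    simp only [sq] at h1
    exact h1
  · intro i hi
    have h1 : inner ℝ (Z i0) (Z i) < 0 := by
      by_contra hcon
      push Not at hcon
      have : 0 ≤ inner ℝ (Z i0) (Z i) / ‖Z i0‖ := by positivity
      linarith
    have h2 := hZge i0 i
    have h3 : (1 + g ^ 2) * (inner ℝ (Z i0) (Z i) / ‖Z i0‖) ^ 2 = inner ℝ (Z i0) (Z i) ^ 2 := by
      rw [← hZn i0]
      field_simp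
    rw [h3]
    have h4 : 0 ≤ -inner ℝ (Z i0) (Z i) := by linarith
    have h5 : -inner ℝ (Z i0) (Z i) ≤ 1 - g * τ i := by linarith
    have h6 := pow_le_pow_left₀ h4 h5 2
    rwa [neg_sq] at h6
  · intro i j hij
    simp only [hYs i j]
    exact hZeq i j hij
  · intro i j hij
    have h1 := hXX i j
    rw [hij] at h1
    have h2 : 0 ≤ ‖c j • X i + c i • X j‖ ^ 2 := sq_nonneg _
    rw [norm_add_sq_real, real_inner_smul_left, real_inner_smul_right, norm_smul, norm_smul,
      mul_pow, mul_pow, Real.norm_eq_abs, Real.norm_eq_abs, sq_abs, sq_abs] at h2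
    have hci := hc i
    have hcj := hc j
    have h3 : (τ i + τ j) * (2 * c i * c j * h) =
        c j * (‖X i‖ ^ 2 + h ^ 2 - c i ^ 2) + c i * (‖X j‖ ^ 2 + h ^ 2 - c j ^ 2) := by
      simp only [hτ]
      have := hci.ne'
      have := hcj.ne'
      have := hh.ne'
      field_simp
    have h4 : (c i + c j) * (c j * (‖X i‖ ^ 2 + h ^ 2 - c i ^ 2) +
        c i * (‖X j‖ ^ 2 + h ^ 2 - c j ^ 2)) =
        (c j ^ 2 * ‖X i‖ ^ 2 + 2 * (c j * (c i * inner ℝ (X i) (X j))) + c i ^ 2 * ‖X j‖ ^ 2) +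
          (c i + c j) ^ 2 * h ^ 2 := by
      have : 2 * inner ℝ (X i) (X j) = ‖X i‖ ^ 2 + ‖X j‖ ^ 2 - (c i + c j) ^ 2 := by linarith
      linear_combination (-(c i * c j)) * this
    have h5 : 0 < (c i + c j) ^ 2 * h ^ 2 := by positivity
    have h6 : 0 < (c i + c j) * ((τ i + τ j) * (2 * c i * c j * h)) := by
      rw [h3, h4]
      linarith
    have h7 : 0 < (τ i + τ j) * (2 * c i * c j * h) := by
      by_contra hcon
      push Not at hcon
      have := mul_nonpos_of_nonneg_of_nonpos (by positivity : 0 ≤ c i + c j) hcon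
      linarith
    by_contra hcon
    push Not at hcon
    have := mul_nonpos_of_nonpos_of_nonneg hcon (by positivity : 0 ≤ 2 * c i * c j * h)
    linarith

/-- Pairwise intersecting Euclidean balls of dimension `6 + k`: `2 ^ (6 + k)` colours for the
tangency graph. -/
theorem ball_color [FiniteDimensional ℝ V] {k : ℕ} (hV : finrank ℝ V = 6 + k) {n : ℕ}
    (x : Fin n → V) (c : Fin n → ℝ) (hc : ∀ i, 0 < c i) (hm : ∀ i j, ‖x i - x j‖ ≤ c i + c j) :
    ∃ col : Fin n → Fin (2 ^ (6 + k)), ∀ i j, ‖x i - x j‖ = c i + c j → col i ≠ col j := by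
  rcases Nat.eq_zero_or_pos n with rfl | hn
  · exact ⟨fun i => i.elim0, fun i => i.elim0⟩
  obtain ⟨y, a, τ, g, h1, h2, h3, h4, h5, h6⟩ := frame_data hV hn x c hc hm
  obtain ⟨col, hcol⟩ := acute_add k
  obtain ⟨co, hco⟩ := color_abs col hcol y a τ g (fun i j => ‖x i - x j‖ = c i + c j)
    h1 h2 h3 h4 h5 h6
  have hN : 44 * 2 ^ k + 1 ≤ 2 ^ (6 + k) := by
    rw [pow_add]
    have : 0 < 2 ^ k := by positivity
    omega
  exact ⟨fun i => Fin.castLE hN (co i), fun i j hij he => hco i j hij (Fin.castLE_injective hN he)⟩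

end

/-- Homothets of the unit ball. -/
theorem image_ball {V : Type} [NormedAddCommGroup V] [NormedSpace ℝ V] {c : ℝ} (hc : 0 < c)
    (x : V) : (fun y => x + c • y) '' Metric.closedBall (0 : V) 1 = Metric.closedBall x c := by
  ext z
  simp only [Set.mem_image, Metric.mem_closedBall, dist_eq_norm, sub_zero]
  constructor
  · rintro ⟨y, hy, rfl⟩
    rw [add_sub_cancel_left, norm_smul, Real.norm_eq_abs, abs_of_pos hc]
    nlinarith
  · intro hz
    refine ⟨c⁻¹ • (z - x), ?_, ?_⟩
    · rw [norm_smul, Real.norm_eq_abs, abs_of_pos (inv_pos.2 hc)]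
      rw [inv_mul_le_iff₀ hc]
      linarith
    · rw [smul_smul, mul_inv_cancel₀ hc.ne', one_smul]
      abel

theorem ball_meet {V : Type} [NormedAddCommGroup V] [NormedSpace ℝ V] {x x' : V} {c c' : ℝ}
    (h : (Metric.closedBall x c ∩ Metric.closedBall x' c').Nonempty) : ‖x - x'‖ ≤ c + c' := by
  obtain ⟨z, h1, h2⟩ := h
  rw [Metric.mem_closedBall, dist_eq_norm] at h1 h2
  have e : x - x' = (z - x') - (z - x) := by abel
  rw [e]
  have := norm_sub_le (z - x') (z - x)
  linarith

theorem ball_disj {V : Type} [NormedAddCommGroup V] [NormedSpace ℝ V] {x x' : V} {c c' : ℝ}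
    (hc : 0 < c) (hc' : 0 < c')
    (h : interior (Metric.closedBall x c) ∩ interior (Metric.closedBall x' c') = ∅) :
    c + c' ≤ ‖x - x'‖ := by
  rw [interior_closedBall _ hc.ne', interior_closedBall _ hc'.ne'] at h
  have := (disjoint_ball_ball_iff hc hc').1 (Set.disjoint_iff_inter_eq_empty.2 h)
  rwa [dist_eq_norm] at this

/-- The Euclidean ball of dimension at least `6`. -/
theorem colB_ball {d : ℕ} (hd : 6 ≤ d) :
    ColB (Metric.closedBall (0 : EuclideanSpace ℝ (Fin d)) 1) (2 ^ d) := by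
  obtain ⟨k, rfl⟩ := Nat.exists_eq_add_of_le hd
  intro n c x hc hm
  have hm' : ∀ i j, ‖x i - x j‖ ≤ c i + c j := by
    intro i j
    by_cases hij : i = j
    · subst hij
      rw [sub_self, norm_zero]
      linarith [hc i]
    · have := hm i j hij
      rw [image_ball (hc i), image_ball (hc j)] at this
      exact ball_meet this
  obtain ⟨col, hcol⟩ := ball_color (V := EuclideanSpace ℝ (Fin (6 + k))) (k := k) (by simp) x c hc
    hm'
  refine ⟨col, fun i j hij hd => hcol i j ?_⟩
  rw [image_ball (hc i), image_ball (hc j)] at hd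
  exact le_antisymm (hm' i j) (ball_disj (hc i) (hc j) hd)

section

variable {V W : Type} [NormedAddCommGroup V] [NormedSpace ℝ V] [NormedAddCommGroup W]
  [NormedSpace ℝ W]

/-- Homothets of an affine image. -/
theorem image_affine (e : V ≃L[ℝ] W) (z : W) (K : Set V) (c : ℝ) (x : W) :
    (fun y => x + c • y) '' ((fun y => z + e y) '' K) =
      e '' ((fun y => e.symm (x + c • z) + c • y) '' K) := by
  rw [Set.image_image, Set.image_image]
  refine Set.image_congr fun y _ => ?_
  simp only [map_add, map_smul, ContinuousLinearEquiv.apply_symm_apply, smul_add]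
  abel

/-- The colouring property is affine invariant. -/
theorem _root_.C1G.ColB.affine {K : Set V} {N : ℕ} (h : ColB K N) (e : V ≃L[ℝ] W) (z : W) :
    ColB ((fun y => z + e y) '' K) N := by
  intro n c x hc hm
  obtain ⟨col, hcol⟩ := h n c (fun i => e.symm (x i + c i • z)) hc (fun i j hij => by
    have h1 := hm i j hij
    rw [image_affine, image_affine, ← Set.image_inter e.injective, Set.image_nonempty] at h1
    exact h1)
  refine ⟨col, fun i j hij hd => hcol i j hij ?_⟩
  have hint : ∀ S : Set V, interior (e '' S) = e '' interior S := fun S =>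
    (e.toHomeomorph.image_interior S).symm
  rw [image_affine, image_affine, hint, hint, ← Set.image_inter e.injective,
    Set.image_eq_empty] at hd
  exact hd

end

/-- Ellipsoids `{y : ‖A (y - z)‖ ≤ 1}` of dimension at least `6`. -/
theorem colB_ellipsoid {d : ℕ} (hd : 6 ≤ d)
    (A : EuclideanSpace ℝ (Fin d) ≃ₗ[ℝ] EuclideanSpace ℝ (Fin d)) (z : EuclideanSpace ℝ (Fin d)) :
    ColB {y | ‖A (y - z)‖ ≤ 1} (2 ^ d) := by
  have h := (colB_ball hd).affine A.symm.toContinuousLinearEquiv z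
  have e : {y : EuclideanSpace ℝ (Fin d) | ‖A (y - z)‖ ≤ 1} =
      (fun y => z + A.symm.toContinuousLinearEquiv y) ''
        Metric.closedBall (0 : EuclideanSpace ℝ (Fin d)) 1 := by
    ext y
    simp only [Set.mem_setOf_eq, Set.mem_image, mem_closedBall_zero_iff]
    constructor
    · intro hy
      refine ⟨A (y - z), hy, ?_⟩
      simp
    · rintro ⟨w, hw, rfl⟩
      simpa using hw
  rw [e]
  exact h

end C1B
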