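import Pool.Agent.C1B.Ell
import Pool.Agent.C1B.Cone
import Pool.Agent.C1G.Fac

/-!
# Large subfamilies with pairwise overlapping interiors
-/

namespace C1B

open Finset Module C1E C1G

/-- Every family of `n` pairwise meeting positive homothets of `K` has at least `n / N` members whose
interiors meet pairwise. -/
def IndB {V : Type} [NormedAddCommGroup V] [NormedSpace ℝ V] (K : Set V) (N : ℕ) : Prop :=
  ∀ (n : ℕ) (c : Fin n → ℝ) (x : Fin n → V), (∀ i, 0 < c i) →
    (∀ i j, i ≠ j →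
      ((fun y => x i + c i • y) '' K ∩ (fun y => x j + c j • y) '' K).Nonempty) →
    ∃ S : Finset (Fin n), n ≤ N * S.card ∧ ∀ i ∈ S, ∀ j ∈ S, i ≠ j →
      (interior ((fun y => x i + c i • y) '' K) ∩
        interior ((fun y => x j + c j • y) '' K)).Nonempty

theorem pigeon {α : Type} [DecidableEq α] (A : Finset α) {N : ℕ} (col : α → Fin N) :
    ∃ S ⊆ A, A.card ≤ N * S.card ∧ ∀ i ∈ S, ∀ j ∈ S, col i = col j := by
  classical
  rcases Nat.eq_zero_or_pos N with rfl | hN
  · refine ⟨∅, by simp, ?_, by simp⟩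
    have : A = ∅ := Finset.eq_empty_of_forall_notMem fun i _ => (col i).elim0
    simp [this]
  · by_contra hcon
    push Not at hcon
    have h1 : ∀ a : Fin N, N * (A.filter fun i => col i = a).card < A.card := by
      intro a
      by_contra hc
      push Not at hc
      obtain ⟨i, hi, j, hj, hij⟩ := hcon _ (Finset.filter_subset _ _) hc
      exact hij ((Finset.mem_filter.1 hi).2.trans (Finset.mem_filter.1 hj).2.symm)
    have h2 : ∑ a : Fin N, N * (A.filter fun i => col i = a).card < ∑ _a : Fin N, A.card :=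
      Finset.sum_lt_sum_of_nonempty ⟨⟨0, hN⟩, mem_univ _⟩ fun a _ => h1 a
    rw [← Finset.mul_sum, ← Finset.card_eq_sum_card_fiberwise (fun i _ => mem_univ (col i))] at h2
    simp at h2

section

variable {V W : Type} [NormedAddCommGroup V] [NormedSpace ℝ V] [NormedAddCommGroup W]
  [NormedSpace ℝ W] {K : Set V} {L : Set W} {N M : ℕ}

theorem _root_.C1G.ColB.ind (h : ColB K N) : IndB K N := by
  intro n c x hc hm
  obtain ⟨col, hcol⟩ := h n c x hc hm
  obtain ⟨S, -, hS, hS'⟩ := pigeon (univ : Finset (Fin n)) col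
  rw [Finset.card_univ, Fintype.card_fin] at hS
  refine ⟨S, hS, fun i hi j hj hij => ?_⟩
  by_contra hne
  exact hcol i j hij (Set.not_nonempty_iff_eq_empty.1 hne) (hS' i hi j hj)

theorem IndB.mono (h : IndB K N) (hNM : N ≤ M) : IndB K M := by
  intro n c x hc hm
  obtain ⟨S, hS, hS'⟩ := h n c x hc hm
  exact ⟨S, hS.trans (Nat.mul_le_mul_right _ hNM), hS'⟩

theorem IndB.sub (h : IndB K N) {n : ℕ} {c : Fin n → ℝ} {x : Fin n → V} (hc : ∀ i, 0 < c i)
    (hm : ∀ i j, i ≠ j →
      ((fun y => x i + c i • y) '' K ∩ (fun y => x j + c j • y) '' K).Nonempty)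
    (A : Finset (Fin n)) :
    ∃ S ⊆ A, A.card ≤ N * S.card ∧ ∀ i ∈ S, ∀ j ∈ S, i ≠ j →
      (interior ((fun y => x i + c i • y) '' K) ∩
        interior ((fun y => x j + c j • y) '' K)).Nonempty := by
  classical
  set e := A.orderEmbOfFin rfl with he
  obtain ⟨S, hS, hS'⟩ := h A.card (fun i => c (e i)) (fun i => x (e i)) (fun i => hc _)
    (fun i j hij => hm _ _ fun h => hij (e.injective h))
  refine ⟨S.map e.toEmbedding, ?_, ?_, ?_⟩
  · intro i hi
    obtain ⟨k, _, rfl⟩ := Finset.mem_map.1 hi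
    exact Finset.orderEmbOfFin_mem A rfl k
  · rwa [Finset.card_map]
  · intro i hi j hj hij
    obtain ⟨k, hk, rfl⟩ := Finset.mem_map.1 hi
    obtain ⟨l, hl, rfl⟩ := Finset.mem_map.1 hj
    exact hS' k hk l hl fun h => hij (by rw [h])

/-- Products. -/
theorem IndB.pi {s : ℕ} {V : Fin s → Type} [∀ j, NormedAddCommGroup (V j)]
    [∀ j, NormedSpace ℝ (V j)] {K : ∀ j, Set (V j)} {N : Fin s → ℕ} (h : ∀ j, IndB (K j) (N j)) :
    IndB (Set.univ.pi K) (∏ j, N j) := by
  classical
  intro n c x hc hm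
  simp only [image_pi] at hm ⊢
  have hm' : ∀ j : Fin s, ∀ i i', i ≠ i' → ((fun y => x i j + c i • y) '' K j ∩
      (fun y => x i' j + c i' • y) '' K j).Nonempty := by
    intro j i i' hii
    obtain ⟨p, h1, h2⟩ := hm i i' hii
    exact ⟨p j, h1 j (Set.mem_univ j), h2 j (Set.mem_univ j)⟩
  have key : ∀ J : Finset (Fin s), ∃ S : Finset (Fin n), n ≤ (∏ j ∈ J, N j) * S.card ∧
      ∀ i ∈ S, ∀ i' ∈ S, i ≠ i' → ∀ j ∈ J, (interior ((fun y => x i j + c i • y) '' K j) ∩
        interior ((fun y => x i' j + c i' • y) '' K j)).Nonempty := by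
    intro J
    induction J using Finset.induction_on with
    | empty => exact ⟨univ, by simp, fun i _ i' _ _ j hj => by simp at hj⟩
    | insert j J hj ih =>
      obtain ⟨S, hS, hS'⟩ := ih
      obtain ⟨S', hsub, hcard, hS''⟩ := (h j).sub hc (hm' j) S
      refine ⟨S', ?_, ?_⟩
      · rw [Finset.prod_insert hj]
        calc n ≤ (∏ j ∈ J, N j) * S.card := hS
          _ ≤ (∏ j ∈ J, N j) * (N j * S'.card) := Nat.mul_le_mul_left _ hcard
          _ = N j * (∏ j ∈ J, N j) * S'.card := by ring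
      · intro i hi i' hi' hii k hk
        rcases Finset.mem_insert.1 hk with rfl | hk
        · exact hS'' i hi i' hi' hii
        · exact hS' i (hsub hi) i' (hsub hi') hii k hk
  obtain ⟨S, hS, hS'⟩ := key univ
  refine ⟨S, hS, fun i hi i' hi' hii => ?_⟩
  have h1 := hS' i hi i' hi' hii
  choose p hp using fun j => h1 j (mem_univ j)
  rw [interior_pi_set Set.finite_univ, interior_pi_set Set.finite_univ]
  exact ⟨p, fun j _ => (hp j).1, fun j _ => (hp j).2⟩

/-- The bound for pairwise tangent families. -/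
theorem IndB.tangent (h : IndB K N) {n : ℕ} {c : Fin n → ℝ} {x : Fin n → V}
    (hc : ∀ i, 0 < c i)
    (ht : ∀ i j, i ≠ j → ((fun y => x i + c i • y) '' K ∩ (fun y => x j + c j • y) '' K).Nonempty ∧
      interior ((fun y => x i + c i • y) '' K) ∩ interior ((fun y => x j + c j • y) '' K) = ∅) :
    n ≤ N := by
  obtain ⟨S, hS, hS'⟩ := h n c x hc fun i j hij => (ht i j hij).1
  have h1 : S.card ≤ 1 := by
    rw [Finset.card_le_one]
    intro i hi j hj
    by_contra hij
    obtain ⟨p, hp⟩ := hS' i hi j hj hij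
    rw [(ht i j hij).2] at hp
    exact hp
  calc n ≤ N * S.card := hS
    _ ≤ N * 1 := Nat.mul_le_mul_left _ h1
    _ = N := mul_one _

/-- The product of any set with a set with the property. -/
theorem IndB.mul (h : IndB L M)
    (hK : ∀ (n : ℕ) (c : Fin n → ℝ) (x : Fin n → V), (∀ i, 0 < c i) →
      (∀ i j, i ≠ j → ((fun y => x i + c i • y) '' K ∩ (fun y => x j + c j • y) '' K).Nonempty ∧
        interior ((fun y => x i + c i • y) '' K) ∩ interior ((fun y => x j + c j • y) '' K) = ∅) →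
      n ≤ N) {n : ℕ} {c : Fin n → ℝ} {x : Fin n → V × W} (hc : ∀ i, 0 < c i)
    (ht : ∀ i j, i ≠ j →
      ((fun y => x i + c i • y) '' (K ×ˢ L) ∩ (fun y => x j + c j • y) '' (K ×ˢ L)).Nonempty ∧
      interior ((fun y => x i + c i • y) '' (K ×ˢ L)) ∩
        interior ((fun y => x j + c j • y) '' (K ×ˢ L)) = ∅) :
    n ≤ N * M := by
  classical
  obtain ⟨hm1, hm2⟩ := meet_prod fun i j hij => (ht i j hij).1
  obtain ⟨S, hS, hS'⟩ := h n c (fun i => (x i).2) hc hm2
  set e := S.orderEmbOfFin rfl with he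
  have h1 : S.card ≤ N := by
    refine hK S.card (fun i => c (e i)) (fun i => (x (e i)).1) (fun i => hc _) fun i j hij => ?_
    have hne : e i ≠ e j := fun h => hij (e.injective h)
    refine ⟨hm1 _ _ hne, ?_⟩
    rcases disj_prod (ht _ _ hne).2 with h2 | h2
    · exact h2
    · exfalso
      obtain ⟨p, hp⟩ := hS' _ (Finset.orderEmbOfFin_mem S rfl i) _
        (Finset.orderEmbOfFin_mem S rfl j) hne
      rw [h2] at hp
      exact hp
  calc n ≤ M * S.card := hS
    _ ≤ M * N := Nat.mul_le_mul_left _ h1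
    _ = N * M := mul_comm _ _

/-- Affine invariance. -/
theorem IndB.affine (h : IndB K N) (e : V ≃L[ℝ] W) (z : W) :
    IndB ((fun y => z + e y) '' K) N := by
  intro n c x hc hm
  obtain ⟨S, hS, hS'⟩ := h n c (fun i => e.symm (x i + c i • z)) hc (fun i j hij => by
    have h1 := hm i j hij
    rw [image_affine, image_affine, ← Set.image_inter e.injective, Set.image_nonempty] at h1
    exact h1)
  refine ⟨S, hS, fun i hi j hj hij => ?_⟩
  have hint : ∀ S : Set V, interior (e '' S) = e '' interior S := fun S =>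
    (e.toHomeomorph.image_interior S).symm
  rw [image_affine, image_affine, hint, hint, ← Set.image_inter e.injective, Set.image_nonempty]
  exact hS' i hi j hj hij

end

/-- Two classes of members without touching pairs. -/
theorem no_touch {ι : Type} {n : ℕ} (y : ι → Fin n → ℝ) (a τ : ι → ℝ) (g : ℝ)
    (T : ι → ι → Prop) (h1 : ∀ i, a i ^ 2 + ∑ m, y i m ^ 2 = 1 + τ i ^ 2) (h2 : ∀ i, τ i ≤ g)
    (hg : g < 1) (h3 : ∀ i, a i < 0 → (1 + g ^ 2) * a i ^ 2 ≤ (1 - g * τ i) ^ 2)
    (h4 : ∀ i j, T i j → a i * a j + ∑ m, y i m * y j m = τ i * τ j - 1)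
    (h5 : ∀ i j, T i j → 0 < τ i + τ j) :
    ∃ Sp : ι → Prop, (∀ i j, Sp i → Sp j → ¬ T i j) ∧
      ∀ i j, ¬ Sp i → ¬ Sp j → 0 ≤ ∑ m, y i m * y j m → ¬ T i j := by
  refine ⟨fun i => ∑ m, y i m ^ 2 = 0 ∧ 0 < a i ∧ τ i = g, ?_, ?_⟩
  · intro i j hi hj hT
    have e4 := h4 i j hT
    have e5 := h5 i j hT
    have hy : ∀ m, y i m = 0 := by
      intro m
      have := (Finset.sum_eq_zero_iff_of_nonneg fun m _ => sq_nonneg (y i m)).1 hi.1 m (mem_univ m)
      exact pow_eq_zero_iff (two_ne_zero) |>.1 this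
    have e : ∑ m, y i m * y j m = 0 := Finset.sum_eq_zero fun m _ => by rw [hy m, zero_mul]
    rw [e, hi.2.2, hj.2.2] at e4
    rw [hi.2.2, hj.2.2] at e5
    nlinarith [mul_pos hi.2.1 hj.2.1]
  · intro i j hi hj he' hT
    have e4 := h4 i j hT
    have e5 := h5 i j hT
    have hneg : a i * a j < 0 := by
      have : τ i * τ j < 1 := by
        have := h2 i
        have := h2 j
        have : 0 < g := by linarith
        rcases le_or_gt 0 (τ i) with h | h
        · rcases le_or_gt 0 (τ j) with h' | h' <;> nlinarith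
        · have : 0 < τ j := by linarith
          nlinarith
      linarith
    rcases mul_neg_iff.1 hneg with ⟨ha, hb⟩ | ⟨ha, hb⟩
    · have hcomm : ∑ m, y j m * y i m = ∑ m, y i m * y j m :=
        Finset.sum_congr rfl fun m _ => mul_comm _ _
      have := key (y := y j) (y' := y i) (h1 i) (h2 j) (h2 i) hg hb ha (h3 j hb) (by linarith)
        (by rw [hcomm]; linarith) (by rw [hcomm]; exact he')
      exact hi ⟨this.2, ha, this.1⟩
    · have := key (y := y i) (y' := y j) (h1 j) (h2 i) (h2 j) hg ha hb (h3 i ha) e5 e4 he'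
      exact hj ⟨this.2, hb, this.1⟩

/-- The combinatorial part in dimension `3 + k`. -/
theorem ind_abs {n k : ℕ} (y : Fin n → Fin (3 + k) → ℝ) (a τ : Fin n → ℝ) (g : ℝ)
    (T : Fin n → Fin n → Prop) (h1 : ∀ i, a i ^ 2 + ∑ m, y i m ^ 2 = 1 + τ i ^ 2)
    (h2 : ∀ i, τ i ≤ g) (hg : g < 1)
    (h3 : ∀ i, a i < 0 → (1 + g ^ 2) * a i ^ 2 ≤ (1 - g * τ i) ^ 2)
    (h4 : ∀ i j, T i j → a i * a j + ∑ m, y i m * y j m = τ i * τ j - 1)
    (h5 : ∀ i j, T i j → 0 < τ i + τ j) :
    ∃ S : Finset (Fin n), n ≤ 2 ^ (3 + k) * S.card ∧ ∀ i ∈ S, ∀ j ∈ S, ¬ T i j := by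
  classical
  obtain ⟨Sp, hSp, hN⟩ := no_touch y a τ g T h1 h2 hg h3 h4 h5
  set P := (univ : Finset (Fin n)).filter Sp with hP
  set Q := (univ : Finset (Fin n)).filter (fun i => ¬ Sp i) with hQ
  have hPQ : P.card + Q.card = n := by
    rw [hP, hQ, Finset.card_filter_add_card_filter_not, Finset.card_univ, Fintype.card_fin]
  have hk : Fintype.card (Fin k → Bool) = 2 ^ k := by simp
  obtain ⟨Q1, hQ1, hQ1c, hQ1s⟩ := pigeon Q
    (fun i => Fintype.equivFinOfCardEq hk fun m => sb (y i (Fin.natAdd 3 m)))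
  obtain ⟨Q2, hQ2, hQ2c, hQ2s⟩ := acute3 Q1
    (fun i => WithLp.toLp 2 fun m : Fin 3 => y i (Fin.castAdd k m))
  have hQ2T : ∀ i ∈ Q2, ∀ j ∈ Q2, ¬ T i j := by
    intro i hi j hj
    refine hN i j (Finset.mem_filter.1 (hQ1 (hQ2 hi))).2 (Finset.mem_filter.1 (hQ1 (hQ2 hj))).2 ?_
    rw [Fin.sum_univ_add]
    refine add_nonneg ?_ (Finset.sum_nonneg fun m _ => ?_)
    · have := hQ2s i hi j hj
      rw [PiLp.inner_apply] at this
      refine this.trans (le_of_eq ?_)
      refine Finset.sum_congr rfl fun m _ => ?_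
      simp only [RCLike.inner_apply, conj_trivial]
      ring
    · have h' := (Fintype.equivFinOfCardEq hk).injective (hQ1s i (hQ2 hi) j (hQ2 hj))
      have h6 : sb (y i (Fin.natAdd 3 m)) = sb (y j (Fin.natAdd 3 m)) := congrFun h' m
      set t := y i (Fin.natAdd 3 m)
      set t' := y j (Fin.natAdd 3 m)
      have e : t * t' = (sg (sb t) * |t|) * (sg (sb t) * |t'|) := by
        rw [← sb_abs t, h6, ← sb_abs t']
      have e' : (sg (sb t) * |t|) * (sg (sb t) * |t'|) = |t| * |t'| := by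
        linear_combination (|t| * |t'|) * sg_mul_self (sb t)
      rw [e, e']
      positivity
  have hQc : Q.card ≤ 7 * 2 ^ k * Q2.card := by
    calc Q.card ≤ 2 ^ k * Q1.card := hQ1c
      _ ≤ 2 ^ k * (7 * Q2.card) := Nat.mul_le_mul_left _ hQ2c
      _ = 7 * 2 ^ k * Q2.card := by ring
  have h2k : 1 ≤ 2 ^ k := Nat.one_le_two_pow
  have hpow : 2 ^ (3 + k) = 8 * 2 ^ k := by rw [pow_add]; norm_num
  rcases le_total P.card Q2.card with hle | hle
  · refine ⟨Q2, ?_, hQ2T⟩
    rw [hpow]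
    nlinarith
  · refine ⟨P, ?_, fun i hi j hj => hSp i j (Finset.mem_filter.1 hi).2 (Finset.mem_filter.1 hj).2⟩
    rw [hpow]
    nlinarith [Nat.mul_le_mul_left (7 * 2 ^ k) hle]

/-- The Euclidean ball of dimension at least `3`. -/
theorem ind_ball {d : ℕ} (hd : 3 ≤ d) :
    IndB (Metric.closedBall (0 : EuclideanSpace ℝ (Fin d)) 1) (2 ^ d) := by
  obtain ⟨k, rfl⟩ := Nat.exists_eq_add_of_le hd
  intro n c x hc hm
  rcases Nat.eq_zero_or_pos n with rfl | hn
  · exact ⟨∅, by simp, by simp⟩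
  have hm' : ∀ i j, ‖x i - x j‖ ≤ c i + c j := by
    intro i j
    by_cases hij : i = j
    · subst hij
      rw [sub_self, norm_zero]
      linarith [hc i]
    · have := hm i j hij
      rw [image_ball (hc i), image_ball (hc j)] at this
      exact ball_meet this
  obtain ⟨y, a, τ, g, h1, h2, h3, h4, h5, h6⟩ := frame_data
    (V := EuclideanSpace ℝ (Fin (3 + k))) (d := 3 + k) (by simp) hn x c hc hm'
  obtain ⟨S, hS, hS'⟩ := ind_abs y a τ g (fun i j => ‖x i - x j‖ = c i + c j) h1 h2 h3 h4 h5 h6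
  refine ⟨S, hS, fun i hi j hj hij => ?_⟩
  by_contra hne
  rw [image_ball (hc i), image_ball (hc j)] at hne
  exact hS' i hi j hj (le_antisymm (hm' i j)
    (ball_disj (hc i) (hc j) (Set.not_nonempty_iff_eq_empty.1 hne)))

theorem ellipsoid_eq {d : ℕ}
    (A : EuclideanSpace ℝ (Fin d) ≃ₗ[ℝ] EuclideanSpace ℝ (Fin d)) (z : EuclideanSpace ℝ (Fin d)) :
    {y : EuclideanSpace ℝ (Fin d) | ‖A (y - z)‖ ≤ 1} =
      (fun y => z + A.symm.toContinuousLinearEquiv y) ''
        Metric.closedBall (0 : EuclideanSpace ℝ (Fin d)) 1 := by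
  ext y
  simp only [Set.mem_setOf_eq, Set.mem_image, mem_closedBall_zero_iff]
  constructor
  · intro hy
    refine ⟨A (y - z), hy, ?_⟩
    simp
  · rintro ⟨w, hw, rfl⟩
    simpa using hw

/-- Ellipsoids of dimension at least `3`. -/
theorem ind_ellipsoid {d : ℕ} (hd : 3 ≤ d)
    (A : EuclideanSpace ℝ (Fin d) ≃ₗ[ℝ] EuclideanSpace ℝ (Fin d)) (z : EuclideanSpace ℝ (Fin d)) :
    IndB {y | ‖A (y - z)‖ ≤ 1} (2 ^ d) := by
  rw [ellipsoid_eq]
  exact (ind_ball hd).affine A.symm.toContinuousLinearEquiv z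

end C1B

namespace C1B

open Finset Module C1E C1G

/-- The Euclidean ball of any dimension. -/
theorem ind_ball_all (d : ℕ) :
    IndB (Metric.closedBall (0 : EuclideanSpace ℝ (Fin d)) 1) (2 ^ d) := by
  rcases Nat.lt_or_ge d 3 with hd | hd
  · have h012 : d = 0 ∨ d = 1 ∨ d = 2 := by omega
    rcases h012 with rfl | rfl | rfl
    · apply ColB.ind
      intro n c x _ hm
      refine ⟨fun _ => ⟨0, by norm_num⟩, fun i j hij hd => ?_⟩
      exfalso
      obtain ⟨p, h1, h2⟩ := hm i j hij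
      have hsub : Subsingleton (EuclideanSpace ℝ (Fin 0)) := inferInstance
      have e : ∀ S : Set (EuclideanSpace ℝ (Fin 0)), S.Nonempty → S = Set.univ := fun S hS => by
        obtain ⟨q, hq⟩ := hS
        exact Set.eq_univ_of_forall fun r => (Subsingleton.elim q r) ▸ hq
      rw [e _ ⟨p, h1⟩, e _ ⟨p, h2⟩, interior_univ, Set.inter_self] at hd
      exact (Set.univ_nonempty (α := EuclideanSpace ℝ (Fin 0))).ne_empty hd
    · have e : Metric.closedBall (0 : EuclideanSpace ℝ (Fin 1)) 1 =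
          {y | ∀ a : Fin 1, |inner ℝ (EuclideanSpace.single (0 : Fin 1) (1 : ℝ)) (y - 0)| ≤ 1} := by
        ext y
        rw [mem_closedBall_zero_iff, Set.mem_setOf_eq, EuclideanSpace.norm_eq]
        simp [EuclideanSpace.inner_single_left]
      rw [e]
      exact (C1G.colB_slab1 (by norm_num)
        (fun _ : Fin 1 => EuclideanSpace.single (0 : Fin 1) (1 : ℝ)) 0).ind
    · refine (C1G.colB_planar _ (convex_closedBall _ _) (isCompact_closedBall _ _) ?_).ind
      rw [interior_closedBall _ one_ne_zero]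
      exact ⟨0, by simp⟩
  · exact ind_ball hd

/-- Ellipsoids of any dimension. -/
theorem ind_ellipsoid_all {d : ℕ}
    (A : EuclideanSpace ℝ (Fin d) ≃ₗ[ℝ] EuclideanSpace ℝ (Fin d)) (z : EuclideanSpace ℝ (Fin d)) :
    IndB {y | ‖A (y - z)‖ ≤ 1} (2 ^ d) := by
  rw [ellipsoid_eq]
  exact (ind_ball_all d).affine A.symm.toContinuousLinearEquiv z

end C1B
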